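import Pool.Agent.W960.D.Alg
import Pool.Agent.W368.SpxPolyFns
import Pool.Agent.W160.SpxClr

set_option autoImplicit false

/-!
# The machine is polynomial-time
-/

namespace Pool.Agent.W960.D

open Pool.Agent.NPC Pool.Agent.H670R2 Pool.Agent.W368

variable (hks : PolyKs) {α : Type} [TEnc α]

include hks

theorem poly_indF {H : α → List (List ℤ)} {g : α → List ℤ} {E : α → List ℕ} {i : α → ℕ}
    (hH : NPC.Poly H) (hg : NPC.Poly g) (hE : NPC.Poly E) (hi : NPC.Poly i) :
    NPC.Poly (fun a => indF (H a) (g a) (E a) (i a)) :=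
  NPC.Poly.isSome (poly_HF hks (NPC.Poly.cons (poly_eT hg) (poly_rows hH hE))
    (NPC.Poly.const []) (poly_row hH hi))

theorem poly_keepS {H : α → List (List ℤ)} {g : α → List ℤ} {T : α → List ℕ} {i : α → ℕ}
    (hH : NPC.Poly H) (hg : NPC.Poly g) (hT : NPC.Poly T) (hi : NPC.Poly i) :
    NPC.Poly (fun a => keepS (H a) (g a) (T a) (i a)) := by
  have h1 : NPC.Poly (fun a => lessF (H a) (g a) (i a :: T a) (List.range (H a).length) (T a)
      (List.range (H a).length)) :=
    poly_lessF hks hH hg (NPC.Poly.cons hi hT) (NPC.Poly.range_length hH) hT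
      (NPC.Poly.range_length hH)
  exact NPC.Poly.ite (NPC.Poly.decide_bool h1) hT (NPC.Poly.cons hi hT)

theorem poly_face0 {H : α → List (List ℤ)} {g p : α → List ℤ}
    (hH : NPC.Poly H) (hg : NPC.Poly g) (hp : NPC.Poly p) :
    NPC.Poly (fun a => face0 (H a) (g a) (p a)) := by
  have hl := poly_tights hH hp (NPC.Poly.range_length hH)
  obtain ⟨q, hq⟩ := hl.sz_le
  have e2 : NPC.Poly (fun x : α × List ℕ × ℕ => keepS (H x.1) (g x.1) x.2.1 x.2.2) :=
    poly_keepS hks (hH.comp (NPC.Poly.fst NPC.Poly.id)) (hg.comp (NPC.Poly.fst NPC.Poly.id))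
      (NPC.Poly.fst (NPC.Poly.snd NPC.Poly.id)) (NPC.Poly.snd (NPC.Poly.snd NPC.Poly.id))
  have key : ∀ (H : List (List ℤ)) (g : List ℤ) (l T : List ℕ),
      sz (l.foldl (keepS H g) T) ≤ sz l + sz T := by
    intro H g l
    induction l with
    | nil => intro T; simp
    | cons i l ih =>
      intro T
      rw [List.foldl_cons]
      refine (ih _).trans ?_
      unfold keepS
      split_ifs
      · simp only [sz_list_cons]; omega
      · simp only [sz_list_cons]; omega
  refine NPC.Poly.foldl (l := fun a => (List.range (H a).length).filter (tightF (H a) (p a)))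
    (s := fun _ => ([] : List ℕ)) (F := fun a T i => keepS (H a) (g a) T i)
    hl (NPC.Poly.const []) e2 (q + Polynomial.C (sz ([] : List ℕ))) fun a k _ => ?_
  refine (key _ _ _ _).trans ?_
  have h1 := NPC.Poly.sz_take_le ((List.range (H a).length).filter (tightF (H a) (p a))) k
  have h2 := hq a
  rw [Polynomial.eval_add, Polynomial.eval_C]
  omega

theorem poly_inds {H : α → List (List ℤ)} {g : α → List ℤ} {E K : α → List ℕ}
    (hH : NPC.Poly H) (hg : NPC.Poly g) (hE : NPC.Poly E) (hK : NPC.Poly K) :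
    NPC.Poly (fun a => (K a).filter (indF (H a) (g a) (E a))) :=
  NPC.Poly.filter (p := fun a i => indF (H a) (g a) (E a) i) hK
    (poly_indF hks (hH.comp (NPC.Poly.fst NPC.Poly.id)) (hg.comp (NPC.Poly.fst NPC.Poly.id))
      (hE.comp (NPC.Poly.fst NPC.Poly.id)) (NPC.Poly.snd NPC.Poly.id))

theorem poly_inds2 {H : α → List (List ℤ)} {g : α → List ℤ} {E K : α → List ℕ} {i : α → ℕ}
    (hH : NPC.Poly H) (hg : NPC.Poly g) (hE : NPC.Poly E) (hK : NPC.Poly K) (hi : NPC.Poly i) :
    NPC.Poly (fun a => (K a).filter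
      (fun j => decide (j ≠ i a) && indF (H a) (g a) (i a :: E a) j)) := by
  refine NPC.Poly.filter (p := fun a j => decide (j ≠ i a) && indF (H a) (g a) (i a :: E a) j) hK
    (NPC.Poly.and ?_ (poly_indF hks (hH.comp (NPC.Poly.fst NPC.Poly.id))
      (hg.comp (NPC.Poly.fst NPC.Poly.id))
      ((NPC.Poly.cons hi hE).comp (NPC.Poly.fst NPC.Poly.id)) (NPC.Poly.snd NPC.Poly.id)))
  exact (NPC.Poly.not (NPC.Poly.decide_eq (NPC.Poly.snd NPC.Poly.id)
    (hi.comp (NPC.Poly.fst NPC.Poly.id)))).congr fun x => by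
      simp

theorem poly_midStep {H : α → List (List ℤ)} {g p : α → List ℤ} {ps : α → List (List ℤ)}
    {E K W : α → List ℕ} {s : α → List Item}
    (hH : NPC.Poly H) (hg : NPC.Poly g) (hp : NPC.Poly p) (hps : NPC.Poly ps)
    (hE : NPC.Poly E) (hK : NPC.Poly K) (hW : NPC.Poly W) (hs : NPC.Poly s) :
    NPC.Poly (fun a => midStep (fns (H a) (g a)) (indF (H a) (g a)) (p a) (ps a) (E a) (K a)
      (W a) (s a)) := by
  have e1 : NPC.Poly (fun a => p a :: ps a) := NPC.Poly.cons hp hps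
  have e2 := poly_ups hks hH hg hE hK
  have e3 : NPC.Poly (fun a => ((K a).filter (isUp (fns (H a) (g a)) (E a) (K a))).find?
      (tightF (H a) (p a))) :=
    poly_find? (p := fun a i => tightF (H a) (p a) i) e2
      (poly_tightF (hH.comp (NPC.Poly.fst NPC.Poly.id)) (hp.comp (NPC.Poly.fst NPC.Poly.id))
        (NPC.Poly.snd NPC.Poly.id))
  have e4 := poly_anyTight hH hp hW
  have e5 : NPC.Poly (fun x : α × ℕ => (p x.1 :: ps x.1,
      ((0, x.2 :: E x.1, (K x.1).filter (fun j => decide (j ≠ x.2) &&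
        indF (H x.1) (g x.1) (x.2 :: E x.1) j), W x.1, 0) : Item) ::
        ((2, E x.1, K x.1, W x.1, x.2) : Item) :: s x.1)) :=
    NPC.Poly.pair (e1.comp (NPC.Poly.fst NPC.Poly.id)) (NPC.Poly.cons
      (poly_item (NPC.Poly.const 0)
        (NPC.Poly.cons (NPC.Poly.snd NPC.Poly.id) (hE.comp (NPC.Poly.fst NPC.Poly.id)))
        (poly_inds2 hks (hH.comp (NPC.Poly.fst NPC.Poly.id)) (hg.comp (NPC.Poly.fst NPC.Poly.id))
          (hE.comp (NPC.Poly.fst NPC.Poly.id)) (hK.comp (NPC.Poly.fst NPC.Poly.id))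
          (NPC.Poly.snd NPC.Poly.id))
        (hW.comp (NPC.Poly.fst NPC.Poly.id)) (NPC.Poly.const 0))
      (NPC.Poly.cons (poly_item (NPC.Poly.const 2) (hE.comp (NPC.Poly.fst NPC.Poly.id))
        (hK.comp (NPC.Poly.fst NPC.Poly.id)) (hW.comp (NPC.Poly.fst NPC.Poly.id))
        (NPC.Poly.snd NPC.Poly.id)) (hs.comp (NPC.Poly.fst NPC.Poly.id))))
  have e6 := NPC.Poly.optCases (g := fun a => (p a :: ps a, s a))
    (h := fun a i => (p a :: ps a,
      ((0, i :: E a, (K a).filter (fun j => decide (j ≠ i) &&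
        indF (H a) (g a) (i :: E a) j), W a, 0) : Item) ::
        ((2, E a, K a, W a, i) : Item) :: s a)) e3 (NPC.Poly.pair e1 hs) e5
  refine (NPC.Poly.ite (NPC.Poly.decide_bool e4) (NPC.Poly.pair e1 hs) e6).congr fun a => ?_
  unfold midStep
  change (if ((W a).any (tightF (H a) (p a))) = true then _ else _) =
    (if ((W a).any (tightF (H a) (p a))) = true then _ else
      match ((K a).filter (isUp (fns (H a) (g a)) (E a) (K a))).find? (tightF (H a) (p a)) with
      | none => (p a :: ps a, s a)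
      | some i => (p a :: ps a, (0, i :: E a, (K a).filter (fun j => decide (j ≠ i) &&
        indF (H a) (g a) (i :: E a) j), W a, 0) ::
        (2, E a, K a, W a, i) :: s a))
  split_ifs
  · rfl
  · cases ((K a).filter (isUp (fns (H a) (g a)) (E a) (K a))).find? (tightF (H a) (p a)) <;> rfl

omit [TEnc α] in
theorem poly_stepS : NPC.Poly stepS := by
  -- the data of an innermost case
  have a0 : NPC.Poly (fun x : (State × Item × List Item) × List ℤ × List (List ℤ) => x.1.1) :=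
    NPC.Poly.fst (NPC.Poly.fst NPC.Poly.id)
  have aH : NPC.Poly (fun x : (State × Item × List Item) × List ℤ × List (List ℤ) =>
      x.1.1.1.1) := NPC.Poly.fst (NPC.Poly.fst a0)
  have ag : NPC.Poly (fun x : (State × Item × List Item) × List ℤ × List (List ℤ) =>
      x.1.1.1.2) := NPC.Poly.snd (NPC.Poly.fst a0)
  have ait : NPC.Poly (fun x : (State × Item × List Item) × List ℤ × List (List ℤ) =>
      x.1.2.1) := NPC.Poly.fst (NPC.Poly.snd (NPC.Poly.fst NPC.Poly.id))
  have ar : NPC.Poly (fun x : (State × Item × List Item) × List ℤ × List (List ℤ) =>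
      x.1.2.2) := NPC.Poly.snd (NPC.Poly.snd (NPC.Poly.fst NPC.Poly.id))
  have ap : NPC.Poly (fun x : (State × Item × List Item) × List ℤ × List (List ℤ) =>
      x.2.1) := NPC.Poly.fst (NPC.Poly.snd NPC.Poly.id)
  have aps : NPC.Poly (fun x : (State × Item × List Item) × List ℤ × List (List ℤ) =>
      x.2.2) := NPC.Poly.snd (NPC.Poly.snd NPC.Poly.id)
  have ak := NPC.Poly.fst ait
  have aE := NPC.Poly.fst (NPC.Poly.snd ait)
  have aK := NPC.Poly.fst (NPC.Poly.snd (NPC.Poly.snd ait))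
  have aW := NPC.Poly.fst (NPC.Poly.snd (NPC.Poly.snd (NPC.Poly.snd ait)))
  have ai := NPC.Poly.snd (NPC.Poly.snd (NPC.Poly.snd (NPC.Poly.snd ait)))
  have b1 := poly_callStep hks aH ag ap aps aE aK aW ar
  have b2 := poly_midStep hks aH ag ap aps aE aK aW ar
  have b3 := poly_endStep hks aH ag ap aps aE aK aW ai ar
  have b4 := NPC.Poly.pair (NPC.Poly.fst a0) (NPC.Poly.ite
    (NPC.Poly.decide_eq ak (NPC.Poly.const 0)) b1
    (NPC.Poly.ite (NPC.Poly.decide_eq ak (NPC.Poly.const 1)) b2 b3))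
  have b5 := NPC.Poly.listCases (l := fun x : State × Item × List Item => x.1.2.1)
    (g := fun x => x.1)
    (h := fun x p ps => (x.1.1, if x.2.1.1 = 0 then
        callStep (fns x.1.1.1 x.1.1.2) p ps x.2.1.2.1 x.2.1.2.2.1 x.2.1.2.2.2.1 x.2.2
      else if x.2.1.1 = 1 then
        midStep (fns x.1.1.1 x.1.1.2) (indF x.1.1.1 x.1.1.2) p ps x.2.1.2.1 x.2.1.2.2.1
          x.2.1.2.2.2.1 x.2.2
      else endStep (fns x.1.1.1 x.1.1.2) p ps x.2.1.2.1 x.2.1.2.2.1 x.2.1.2.2.2.1
        x.2.1.2.2.2.2 x.2.2))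
    (NPC.Poly.fst (NPC.Poly.snd (NPC.Poly.fst NPC.Poly.id))) (NPC.Poly.fst NPC.Poly.id) b4
  have b5' : NPC.Poly (fun x : State × Item × List Item => match x.1.2.1 with
      | [] => x.1
      | p :: ps => (x.1.1, if x.2.1.1 = 0 then
          callStep (fns x.1.1.1 x.1.1.2) p ps x.2.1.2.1 x.2.1.2.2.1 x.2.1.2.2.2.1 x.2.2
        else if x.2.1.1 = 1 then
          midStep (fns x.1.1.1 x.1.1.2) (indF x.1.1.1 x.1.1.2) p ps x.2.1.2.1 x.2.1.2.2.1
            x.2.1.2.2.2.1 x.2.2
        else endStep (fns x.1.1.1 x.1.1.2) p ps x.2.1.2.1 x.2.1.2.2.1 x.2.1.2.2.2.1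
          x.2.1.2.2.2.2 x.2.2)) := b5.congr fun x => by
    obtain ⟨⟨c, ps, s⟩, it, r⟩ := x
    cases ps <;> rfl
  have b6 := NPC.Poly.listCases (l := fun x : State => x.2.2) (g := fun x => x)
    (h := fun x it r => match x.2.1 with
      | [] => x
      | p :: ps => (x.1, if it.1 = 0 then
          callStep (fns x.1.1 x.1.2) p ps it.2.1 it.2.2.1 it.2.2.2.1 r
        else if it.1 = 1 then
          midStep (fns x.1.1 x.1.2) (indF x.1.1 x.1.2) p ps it.2.1 it.2.2.1 it.2.2.2.1 r
        else endStep (fns x.1.1 x.1.2) p ps it.2.1 it.2.2.1 it.2.2.2.1 it.2.2.2.2 r))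
    (NPC.Poly.snd (NPC.Poly.snd NPC.Poly.id)) NPC.Poly.id b5'
  refine b6.congr fun x => ?_
  obtain ⟨⟨H, g⟩, ps, s⟩ := x
  cases s with
  | nil => cases ps <;> rfl
  | cons it r => cases ps <;> rfl

omit [TEnc α] in
theorem poly_initS : NPC.Poly initS := by
  have hc : ∀ (α : Type) [TEnc α] (H : α → List (List ℤ)) (g p : α → List ℤ), NPC.Poly H →
      NPC.Poly g → NPC.Poly p → NPC.Poly (fun a => canon (H a) (g a) (p a)) :=
    fun α _ H g p hH hg hp => poly_canon hks hH hg hp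
  have hs := Pool.Agent.W160.Spx.poly_start hc
  have hr := Pool.Agent.W160.Spx.poly_rowsH
  have hg := Pool.Agent.W160.Spx.poly_objG
  have hf := poly_face0 hks hr hg hs
  refine NPC.Poly.pair (NPC.Poly.pair hr hg)
    (NPC.Poly.pair (Pool.Agent.W160.Spx.poly_singleton hs)
    (Pool.Agent.W160.Spx.poly_singleton ?_))
  exact poly_item (NPC.Poly.const 0) hf
    (poly_inds hks hr hg hf (NPC.Poly.range_length hr)) (NPC.Poly.const []) (NPC.Poly.const 0)

end Pool.Agent.W960.D
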