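import Pool.Agent.W960.Sim2

set_option autoImplicit false

/-!
# The machine with a dimension-sensitive bound
-/

namespace Pool.Agent.W960.D

open Matrix Relation

variable {Pt : Type}

/-- After the relaxed call. -/
def midStep (F : Fns Pt) (ind : List ℕ → ℕ → Bool) (p : Pt) (ps : List Pt) (E K W : List ℕ)
    (s : List Item) : List Pt × List Item :=
  if W.any (F.tight p) then (p :: ps, s)
  else match (K.filter (isUp F E K)).find? (F.tight p) with
    | none => (p :: ps, s)
    | some i => (p :: ps, (0, i :: E, K.filter (fun j => decide (j ≠ i) && ind (i :: E) j), W, 0) ::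
        (2, E, K, W, i) :: s)

/-- One step of the machine. -/
def step (F : Fns Pt) (ind : List ℕ → ℕ → Bool) (s : List Pt × List Item) : List Pt × List Item :=
  match s.1, s.2 with
  | _, [] => s
  | [], _ :: _ => s
  | p :: ps, it :: r =>
    if it.1 = 0 then callStep F p ps it.2.1 it.2.2.1 it.2.2.2.1 r
    else if it.1 = 1 then midStep F ind p ps it.2.1 it.2.2.1 it.2.2.2.1 r
    else endStep F p ps it.2.1 it.2.2.1 it.2.2.2.1 it.2.2.2.2 r

variable {n : ℕ} {a : ℕ → Fin n → ℝ} {b : ℕ → ℝ} {c : Fin n → ℝ} {N : ℕ}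

/-- there is an improving unbounded edge in the face -/
def Unb (a : ℕ → Fin n → ℝ) (b : ℕ → ℝ) (c : Fin n → ℝ) (N : ℕ) (E : List ℕ)
    (u : Fin n → ℝ) : Prop :=
  ∃ d : Fin n → ℝ, EdgeDir a b c [] (List.range N) u d ∧ (∀ i < N, a i ⬝ᵥ d ≤ 0) ∧
    ∀ i ∈ E, a i ⬝ᵥ u = b i ∧ a i ⬝ᵥ d = 0

/-- The directions of the affine space given by the equations. -/
def VE (a : ℕ → Fin n → ℝ) (E : List ℕ) : Submodule ℝ (Fin n → ℝ) where
  carrier := {d | ∀ i ∈ E, a i ⬝ᵥ d = 0}
  add_mem' := fun {x y} hx hy i hi => by rw [dotProduct_add, hx i hi, hy i hi, add_zero]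
  zero_mem' := fun i _ => dotProduct_zero _
  smul_mem' := fun t x hx i hi => by rw [dotProduct_smul, hx i hi, smul_zero]

theorem mem_VE {E : List ℕ} {d : Fin n → ℝ} : d ∈ VE a E ↔ ∀ i ∈ E, a i ⬝ᵥ d = 0 := Iff.rfl

/-- the constraint is not constant on the affine space -/
def Ind (a : ℕ → Fin n → ℝ) (E : List ℕ) (i : ℕ) : Prop := ∃ d ∈ VE a E, a i ⬝ᵥ d ≠ 0

/-- The bound for the number of moves. -/
def M : ℕ → ℕ → ℕ
  | 0, _ => 0
  | _ + 1, 0 => 0
  | d + 1, k + 1 => M d k + 2 * M (d + 1) ((k + 1) / 2) + 1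
  termination_by d k => d + k
  decreasing_by all_goals omega

theorem M_zero (k : ℕ) : M 0 k = 0 := by rw [M]

theorem M_succ_zero (d : ℕ) : M d 0 = 0 := by cases d <;> rw [M]

theorem M_succ (d k : ℕ) : M (d + 1) (k + 1) = M d k + 2 * M (d + 1) ((k + 1) / 2) + 1 := by
  rw [M]

theorem M_mono_aux (s : ℕ) : ∀ d k, d + k ≤ s → M d k ≤ M (d + 1) k ∧ M d k ≤ M d (k + 1) := by
  induction s using Nat.strong_induction_on with
  | _ s ih =>
    intro d k hs
    -- monotone in `k` up to smaller sums
    have hk : ∀ d' k₁ k₂ : ℕ, k₁ ≤ k₂ → d' + k₂ ≤ s → M d' k₁ ≤ M d' k₂ := by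
      intro d' k₁ k₂ h12 hlt
      induction h12 with
      | refl => exact le_rfl
      | @step m hm ihm =>
        exact (ihm (by omega)).trans (ih (d' + m) (by omega) d' m le_rfl).2
    constructor
    · cases d with
      | zero => rw [M_zero]; exact Nat.zero_le _
      | succ d =>
        cases k with
        | zero => rw [M_succ_zero]; exact Nat.zero_le _
        | succ k =>
          rw [M_succ, M_succ]
          have h1 := (ih (d + k) (by omega) d k le_rfl).1
          have h2 := (ih (d + 1 + (k + 1) / 2) (by omega) (d + 1) ((k + 1) / 2) le_rfl).1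
          omega
    · cases d with
      | zero => rw [M_zero]; exact Nat.zero_le _
      | succ d =>
        cases k with
        | zero => rw [M_succ_zero]; exact Nat.zero_le _
        | succ k =>
          rw [M_succ, M_succ]
          have h1 := (ih (d + k) (by omega) d k le_rfl).2
          have h2 : M (d + 1) ((k + 1) / 2) ≤ M (d + 1) ((k + 1 + 1) / 2) :=
            hk _ _ _ (by omega) (by omega)
          omega

theorem M_mono {d d' k k' : ℕ} (hd : d ≤ d') (hk : k ≤ k') : M d k ≤ M d' k' := by
  have h1 : M d k ≤ M d' k := by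
    induction hd with
    | refl => exact le_rfl
    | @step m _ ih => exact ih.trans (M_mono_aux (m + k) m k le_rfl).1
  have h2 : M d' k ≤ M d' k' := by
    induction hk with
    | refl => exact le_rfl
    | @step m _ ih => exact ih.trans (M_mono_aux (d' + m) d' m le_rfl).2
  exact h1.trans h2

theorem M_half (d k : ℕ) : M d k ≤ d * (2 * M d (k / 2) + 1) := by
  induction d generalizing k with
  | zero => rw [M_zero]; exact Nat.zero_le _
  | succ d ih =>
    cases k with
    | zero => rw [M_succ_zero]; exact Nat.zero_le _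
    | succ k =>
      rw [M_succ]
      have h1 := ih k
      have h2 : M d (k / 2) ≤ M (d + 1) ((k + 1) / 2) := M_mono (Nat.le_succ _) (by omega)
      have h3 : d * (2 * M d (k / 2) + 1) ≤ d * (2 * M (d + 1) ((k + 1) / 2) + 1) :=
        Nat.mul_le_mul_left _ (by omega)
      calc M d k + 2 * M (d + 1) ((k + 1) / 2) + 1
          ≤ d * (2 * M (d + 1) ((k + 1) / 2) + 1) + (2 * M (d + 1) ((k + 1) / 2) + 1) := by omega
        _ = _ := by ring

/-- The number of moves is at most `(2 d) ^ (log₂ k + 1)`. -/
theorem M_le (d k : ℕ) : M d k ≤ (2 * d) ^ (Nat.log 2 k + 1) := by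
  rcases Nat.eq_zero_or_pos d with rfl | hd
  · rw [M_zero]; exact Nat.zero_le _
  have key : M d k + 1 ≤ (2 * d) ^ (Nat.log 2 k + 1) := by
    induction k using Nat.strong_induction_on with
    | _ k ih =>
      rcases Nat.eq_zero_or_pos k with rfl | hk
      · rw [M_succ_zero]
        exact Nat.one_le_pow _ _ (by omega)
      have h1 := M_half d k
      have h2 := ih (k / 2) (by omega)
      rcases Nat.lt_or_ge k 2 with hk2 | hk2
      · have hk1 : k = 1 := by omega
        subst hk1
        have h3 : M d (1 / 2) = 0 := M_succ_zero d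
        rw [h3] at h1
        have h4 : Nat.log 2 1 = 0 := by simp
        rw [h4]
        simp only [zero_add, pow_one]
        omega
      · have h4 : Nat.log 2 k = Nat.log 2 (k / 2) + 1 := by
          rw [Nat.log_of_one_lt_of_le (by norm_num) hk2]
        rw [h4, pow_succ]
        calc M d k + 1 ≤ d * (2 * M d (k / 2) + 1) + 1 := by omega
          _ ≤ (M d (k / 2) + 1) * (2 * d) := by nlinarith
          _ ≤ _ := Nat.mul_le_mul_right _ h2
  omega

end Pool.Agent.W960.D
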