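import Pool.Agent.W960.Conv
import Pool.Agent.W960.D.Sim

set_option autoImplicit false

/-!
# The algorithm with the dimension-sensitive bound
-/

namespace Pool.Agent.W960.D

open Pool.Agent.NPC Pool.Agent.H670R2

/-- is the constraint not constant on the affine space given by the equations `E`? -/
def indF (H : List (List ℤ)) (g : List ℤ) (E : List ℕ) (i : ℕ) : Bool :=
  (HF (eT g :: E.map (row H)) [] (row H i)).isSome

/-- add the equation `i` if this does not decrease the optimal value -/
def keepS (H : List (List ℤ)) (g : List ℤ) (T : List ℕ) (i : ℕ) : List ℕ :=
  if lessF H g (i :: T) (List.range H.length) T (List.range H.length) then T else i :: T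

/-- a small face which contains the point `p` and has the same optimal value as the polyhedron -/
def face0 (H : List (List ℤ)) (g p : List ℤ) : List ℕ :=
  ((List.range H.length).filter (tightF H p)).foldl (keepS H g) []

/-- the first item -/
def item0 (H : List (List ℤ)) (g p : List ℤ) : Item :=
  (0, face0 H g p, (List.range H.length).filter (indF H g (face0 H g p)), [], 0)

/-- the initial state -/
def initS (x : QData) : State :=
  ((rowsH x, objG x), ([start x], [item0 (rowsH x) (objG x) (start x)]))

/-- one step of the machine -/
def stepS (s : State) : State := (s.1, step (fns s.1.1 s.1.2) (indF s.1.1 s.1.2) s.2)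

end Pool.Agent.W960.D
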