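import Pool.Agent.W960.D.Sim2
import Pool.Agent.W960.D.Alg
import Pool.Agent.W960.Fin

set_option autoImplicit false

/-!
# The run of the machine on an integral instance
-/

namespace Pool.Agent.W960.D

open Pool.Agent.NPC Pool.Agent.H670R2 Matrix Relation

section

variable {H : List (List ℤ)} {g : List ℤ} {n : ℕ}

theorem indF_iff (hy : Hyp) (h : WF H g n) (E : List ℕ) (i : ℕ) (hE : ∀ j ∈ E, j < H.length)
    (hi : i < H.length) : indF H g E i = true ↔ Ind (aR H n) E i := by
  unfold indF
  have hl : ∀ a ∈ eT g :: E.map (row H), a.length = (row H i).length := by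
    intro a ha
    rw [dirT_len1 h hE a ha, h.g_len, h.H_len i hi]
  rw [HF_iff hy hl (by simp)]
  constructor
  · rintro ⟨x, h1, h2, -, h4⟩
    have h0 : x.getD n 0 = 0 := by
      rw [← dZ_eT h]
      exact h2 _ List.mem_cons_self
    refine ⟨fun j => x.getD j 0, fun j hj => ?_, ?_⟩
    · have := h2 _ (List.mem_cons_of_mem _ (List.mem_map_of_mem hj))
      rw [dZ_row' h (hE j hj), h0] at this
      linarith
    · rw [dZ_row' h hi, h0] at h4
      have : 0 < aR H n i ⬝ᵥ fun j : Fin n => x.getD j 0 := by linarith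
      exact this.ne'
  · rintro ⟨d, hd, hne⟩
    have key : ∀ d : Fin n → ℝ, d ∈ VE (aR H n) E → 0 < aR H n i ⬝ᵥ d →
        ∃ x : List ℝ, x.length = (row H i).length ∧
          (∀ a ∈ eT g :: E.map (row H), dZ a x = 0) ∧ (∀ a ∈ ([] : List (List ℤ)), dZ a x ≤ 0) ∧
          0 < dZ (row H i) x := by
      intro d hd hpos
      refine ⟨lst d 0, by rw [length_lst, h.H_len i hi], fun a ha => ?_, by simp, ?_⟩
      · rcases List.mem_cons.1 ha with rfl | ha
        · rw [dZ_eT h, lst_getD_last]
        · obtain ⟨j, hj, rfl⟩ := List.mem_map.1 ha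
          rw [dZ_row h (hE j hj), hd j hj]
          ring
      · rw [dZ_row h hi]
        linarith
    rcases lt_or_gt_of_ne hne with h1 | h1
    · exact key (-d) ((VE (aR H n) E).neg_mem hd) (by rw [dotProduct_neg]; linarith)
    · exact key d hd h1

/-! ## The first face -/

theorem keep_aux (hy : Hyp) (h : WF H g n) (l : List ℕ) (hl : ∀ i ∈ l, i < H.length) :
    ∀ T : List ℕ, (∀ i ∈ T, i < H.length) →
    val (aR H n) (bR H n) (cR g n) T (List.range H.length) =
      val (aR H n) (bR H n) (cR g n) [] (List.range H.length) →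
    (∀ i ∈ T, i ∈ l.foldl (keepS H g) T) ∧
    (∀ i ∈ l.foldl (keepS H g) T, i ∈ T ∨ i ∈ l) ∧
    val (aR H n) (bR H n) (cR g n) (l.foldl (keepS H g) T) (List.range H.length) =
      val (aR H n) (bR H n) (cR g n) [] (List.range H.length) ∧
    ∀ i ∈ l, i ∉ l.foldl (keepS H g) T → ∃ T' : List ℕ, (∀ j ∈ T', j ∈ l.foldl (keepS H g) T) ∧
      val (aR H n) (bR H n) (cR g n) (i :: T') (List.range H.length) <
        val (aR H n) (bR H n) (cR g n) [] (List.range H.length) := by
  induction l with
  | nil =>
    intro T hT hval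
    exact ⟨fun i hi => hi, fun i hi => Or.inl hi, hval, by simp⟩
  | cons j l ih =>
    intro T hT hval
    have hj := hl j List.mem_cons_self
    have hl' : ∀ i ∈ l, i < H.length := fun i hi => hl i (List.mem_cons_of_mem _ hi)
    have hjT : ∀ i ∈ j :: T, i < H.length := by
      intro i hi
      rcases List.mem_cons.1 hi with rfl | hi
      · exact hj
      · exact hT i hi
    have hr : ∀ i ∈ List.range H.length, i < H.length := fun i hi => List.mem_range.1 hi
    have hiff := lessF_iff hy h hjT hr hT hr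
    rw [List.foldl_cons]
    by_cases hc : lessF H g (j :: T) (List.range H.length) T (List.range H.length) = true
    · have hk : keepS H g T j = T := by
        unfold keepS
        rw [if_pos hc]
      rw [hk]
      obtain ⟨h1, h2, h3, h4⟩ := ih hl' T hT hval
      refine ⟨h1, fun i hi => ?_, h3, fun i hi hni => ?_⟩
      · rcases h2 i hi with h5 | h5
        · exact Or.inl h5
        · exact Or.inr (List.mem_cons_of_mem _ h5)
      · rcases List.mem_cons.1 hi with rfl | hi
        · refine ⟨T, h1, ?_⟩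
          have := hiff.1 hc
          rwa [hval] at this
        · exact h4 i hi hni
    · have hk : keepS H g T j = j :: T := by
        unfold keepS
        rw [if_neg hc]
      rw [hk]
      have hval' : val (aR H n) (bR H n) (cR g n) (j :: T) (List.range H.length) =
          val (aR H n) (bR H n) (cR g n) [] (List.range H.length) := by
        rw [hiff, not_lt, hval] at hc
        refine le_antisymm ?_ hc
        exact iSup₂_le fun x hx => le_val (Q_mono (fun _ h => absurd h List.not_mem_nil)
          (fun _ h => h) hx)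
      obtain ⟨h1, h2, h3, h4⟩ := ih hl' (j :: T) hjT hval'
      refine ⟨fun i hi => h1 i (List.mem_cons_of_mem _ hi), fun i hi => ?_, h3,
        fun i hi hni => ?_⟩
      · rcases h2 i hi with h5 | h5
        · rcases List.mem_cons.1 h5 with rfl | h5
          · exact Or.inr List.mem_cons_self
          · exact Or.inl h5
        · exact Or.inr (List.mem_cons_of_mem _ h5)
      · rcases List.mem_cons.1 hi with rfl | hi
        · exact absurd (h1 _ List.mem_cons_self) hni
        · exact h4 i hi hni

theorem face0_spec (hy : Hyp) (h : WF H g n) {p : List ℤ} (hp : ok n p) :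
    (∀ i ∈ face0 H g p, i < H.length ∧ aR H n i ⬝ᵥ pos n p = bR H n i) ∧
    val (aR H n) (bR H n) (cR g n) (face0 H g p) (List.range H.length) =
      val (aR H n) (bR H n) (cR g n) [] (List.range H.length) ∧
    ∀ i < H.length, aR H n i ⬝ᵥ pos n p = bR H n i → i ∉ face0 H g p →
      ∃ T' : List ℕ, (∀ j ∈ T', j ∈ face0 H g p) ∧
        val (aR H n) (bR H n) (cR g n) (i :: T') (List.range H.length) <
          val (aR H n) (bR H n) (cR g n) [] (List.range H.length) := by
  have hl : ∀ i ∈ (List.range H.length).filter (tightF H p), i < H.length :=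
    fun i hi => List.mem_range.1 (List.mem_filter.1 hi).1
  obtain ⟨-, h2, h3, h4⟩ := keep_aux hy h ((List.range H.length).filter (tightF H p)) hl []
    (by simp) rfl
  refine ⟨fun i hi => ?_, h3, fun i hi ht hni => h4 i (List.mem_filter.2
    ⟨List.mem_range.2 hi, (tightF_iff h hi hp).2 ht⟩) hni⟩
  rcases h2 i hi with h5 | h5
  · exact absurd h5 List.not_mem_nil
  · obtain ⟨h6, h7⟩ := List.mem_filter.1 h5
    exact ⟨List.mem_range.1 h6, (tightF_iff h (List.mem_range.1 h6) hp).1 h7⟩

end

/-! ## Dimension counts -/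

section

variable {n : ℕ} {a : ℕ → Fin n → ℝ} {b : ℕ → ℝ} {c : Fin n → ℝ} {N : ℕ}

/-- the values of the functionals in `R` -/
def evR (a : ℕ → Fin n → ℝ) (V : Submodule ℝ (Fin n → ℝ)) (R : Finset ℕ) :
    V →ₗ[ℝ] (R → ℝ) where
  toFun d i := a i ⬝ᵥ (d : Fin n → ℝ)
  map_add' x y := by
    ext i
    simp [dotProduct_add]
  map_smul' t x := by
    ext i
    simp [dotProduct_smul]

theorem finrank_le_of_zero (V : Submodule ℝ (Fin n → ℝ)) (R : Finset ℕ)
    (h : ∀ d ∈ V, (∀ i ∈ R, a i ⬝ᵥ d = 0) → d = 0) : Module.finrank ℝ V ≤ R.card := by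
  have hinj : Function.Injective (evR a V R) := by
    rw [← LinearMap.ker_eq_bot, LinearMap.ker_eq_bot']
    intro d hd
    have := h d d.2 fun i hi => by
      have h1 := congrFun hd ⟨i, hi⟩
      exact h1
    exact Subtype.ext this
  have := LinearMap.finrank_le_finrank_of_injective hinj
  simpa using this

theorem finrank_le_of_line (V : Submodule ℝ (Fin n → ℝ)) (R : Finset ℕ) (e : Fin n → ℝ)
    (h : ∀ d ∈ V, (∀ i ∈ R, a i ⬝ᵥ d = 0) → ∃ t : ℝ, d = t • e) :
    Module.finrank ℝ V ≤ R.card + 1 := by
  have h1 := LinearMap.finrank_range_add_finrank_ker (evR a V R)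
  have h2 : Module.finrank ℝ (LinearMap.range (evR a V R)) ≤ R.card := by
    have := Submodule.finrank_le (LinearMap.range (evR a V R))
    simpa using this
  have h3 : Module.finrank ℝ (LinearMap.ker (evR a V R)) ≤ 1 := by
    have hinj : Function.Injective ((V.subtype).comp (LinearMap.ker (evR a V R)).subtype) := by
      intro x y hxy
      exact Subtype.ext (Subtype.ext hxy)
    have hle : LinearMap.range ((V.subtype).comp (LinearMap.ker (evR a V R)).subtype) ≤
        Submodule.span ℝ {e} := by
      rintro x ⟨y, rfl⟩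
      obtain ⟨t, ht⟩ := h y.1 y.1.2 fun i hi => by
        have h4 := congrFun (LinearMap.mem_ker.1 y.2) ⟨i, hi⟩
        exact h4
      exact Submodule.mem_span_singleton.2 ⟨t, ht.symm⟩
    rw [← LinearMap.finrank_range_of_inj hinj]
    refine (Submodule.finrank_mono hle).trans ?_
    exact (finrank_span_le_card ({e} : Set (Fin n → ℝ))).trans (by simp)
  omega

theorem finrank_VE_nil : Module.finrank ℝ (VE a ([] : List ℕ)) = n := by
  have : VE a ([] : List ℕ) = ⊤ := by
    rw [eq_top_iff]
    intro d _ i hi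
    exact absurd hi List.not_mem_nil
  rw [this, finrank_top]
  simp

theorem finrank_VE_le (E : List ℕ) : Module.finrank ℝ (VE a E) ≤ n := by
  have := Submodule.finrank_le (VE a E)
  simpa using this

open Classical in
/-- The constraints which are tight at `u`. -/
noncomputable def Tt (a : ℕ → Fin n → ℝ) (b : ℕ → ℝ) (N : ℕ) (u : Fin n → ℝ) : Finset ℕ :=
  (Finset.range N).filter fun i => a i ⬝ᵥ u = b i

theorem mem_Tt {u : Fin n → ℝ} {i : ℕ} : i ∈ Tt a b N u ↔ i < N ∧ a i ⬝ᵥ u = b i := by
  simp [Tt]

theorem card_Tt {u : Fin n → ℝ} (h : Vtx a b [] (List.range N) u) : n ≤ (Tt a b N u).card := by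
  have := finrank_le_of_zero (a := a) (VE a []) (Tt a b N u) fun d _ h2 =>
    h.2 d (by simp) fun i hi ht => h2 i (mem_Tt.2 ⟨List.mem_range.1 hi, ht⟩)
  rwa [finrank_VE_nil] at this

/-- The counting argument. -/
theorem count_bounds {E : List ℕ} {K : List ℕ} (hKn : K.Nodup) (hK : ∀ i ∈ K, i < N)
    (hKE : ∀ i ∈ K, i ∉ E) {u : Fin n → ℝ} (hu : Vtx a b [] (List.range N) u) (R : Finset ℕ)
    (hRN : ∀ i ∈ R, i < N) (hRE : ∀ i ∈ R, i < N → a i ⬝ᵥ u = b i → i ∈ E) (e : ℕ)
    (hRc : n ≤ R.card + e)
    (hdim : Module.finrank ℝ (VE a E) ≤ (R.filter fun i => i ∉ E).card + e) :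
    K.length + 2 * n ≤ 2 * N + e ∧ Module.finrank ℝ (VE a E) + n ≤ N + e := by
  classical
  have h1 := card_Tt hu
  have h2 : (R.filter fun i => i ∉ E) ⊆ (Finset.range N) \ Tt a b N u := by
    intro i hi
    rw [Finset.mem_filter] at hi
    rw [Finset.mem_sdiff, Finset.mem_range]
    refine ⟨hRN i hi.1, fun h3 => hi.2 ?_⟩
    exact hRE i hi.1 (hRN i hi.1) (mem_Tt.1 h3).2
  have h3 : Tt a b N u ⊆ Finset.range N := fun i hi => Finset.mem_range.2 (mem_Tt.1 hi).1
  have h4 := Finset.card_le_card h2
  rw [Finset.card_sdiff_of_subset h3, Finset.card_range] at h4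
  have h5 := Finset.card_le_card h3
  rw [Finset.card_range] at h5
  refine ⟨?_, by omega⟩
  -- the constraints in `K` are outside `R ∩ Tt`
  have h6 : R ∩ Tt a b N u ⊆ (Finset.range N).filter fun i => i ∈ E := by
    intro i hi
    rw [Finset.mem_inter] at hi
    rw [Finset.mem_filter, Finset.mem_range]
    exact ⟨hRN i hi.1, hRE i hi.1 (hRN i hi.1) (mem_Tt.1 hi.2).2⟩
  have h7 : K.toFinset ⊆ (Finset.range N).filter fun i => i ∉ E := by
    intro i hi
    rw [List.mem_toFinset] at hi
    rw [Finset.mem_filter, Finset.mem_range]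
    exact ⟨hK i hi, hKE i hi⟩
  have h8 := Finset.card_le_card h6
  have h9 := Finset.card_le_card h7
  rw [List.toFinset_card_of_nodup hKn] at h9
  have h10 := Finset.card_filter_add_card_filter_not (s := Finset.range N) (fun i => i ∈ E)
  rw [Finset.card_range] at h10
  have h11 := Finset.card_union_add_card_inter R (Tt a b N u)
  have h12 : (R ∪ Tt a b N u).card ≤ N := by
    have : R ∪ Tt a b N u ⊆ Finset.range N :=
      Finset.union_subset (fun i hi => Finset.mem_range.2 (hRN i hi)) h3
    have := Finset.card_le_card this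
    rwa [Finset.card_range] at this
  omega

theorem iSup_ray {E : List ℕ} {u d : Fin n → ℝ} (hd : 0 < c ⬝ᵥ d)
    (h : ∀ t : ℝ, 0 ≤ t → u + t • d ∈ Q a b E (List.range N)) :
    val a b c E (List.range N) = ⊤ := by
  rw [EReal.eq_top_iff_forall_lt]
  intro y
  set t : ℝ := |y - c ⬝ᵥ u| / (c ⬝ᵥ d) + 1 with ht
  have ht0 : 0 ≤ t := by positivity
  refine lt_of_lt_of_le ?_ (le_val (h t ht0))
  rw [EReal.coe_lt_coe_iff, dotProduct_add, dotProduct_smul, smul_eq_mul, ht, add_mul, one_mul,
    div_mul_cancel₀ _ hd.ne']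
  have := le_abs_self (y - c ⬝ᵥ u)
  linarith

end

section

variable {H : List (List ℤ)} {g : List ℤ} {n : ℕ}

theorem notMem_of_ind {a : ℕ → Fin n → ℝ} {E : List ℕ} {i : ℕ} (h : Ind a E i) : i ∉ E := by
  intro hi
  obtain ⟨d, hd, hne⟩ := h
  exact hne (hd i hi)

/-- The run of the machine. -/
theorem run_spec (hy : Hyp) (h : WF H g n) {p0 : List ℤ} (hp : ok n p0)
    (hv : pos n p0 ∈ (PP (aR H n) (bR H n) H.length).extremePoints ℝ) (L : ℕ)
    (hL : 5 * (2 * min n (H.length - n + 1)) ^
      (Nat.log 2 (min H.length (2 * (H.length - n) + 1)) + 1) + 1 ≤ L) :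
    ∃ p ps, (step (fns H g) (indF H g))^[L] ([p0], [item0 H g p0]) = (p :: ps, []) ∧
      (p :: ps).length ≤ (2 * min n (H.length - n + 1)) ^
        (Nat.log 2 (min H.length (2 * (H.length - n) + 1)) + 1) + 1 ∧
      (p :: ps).IsChain (fun q p => Adj (aR H n) (bR H n) (cR g n) H.length (pos n p) (pos n q)) ∧
      (p :: ps).getLast? = some p0 ∧
      (∀ q ∈ p :: ps, pos n q ∈ (PP (aR H n) (bR H n) H.length).extremePoints ℝ) ∧
      Done H g n (pos n p) := by
  classical
  set N := H.length with hN
  set E := face0 H g p0 with hEdef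
  set K := (List.range N).filter (indF H g E) with hKdef
  obtain ⟨f1, f2, f3⟩ := face0_spec hy h hp
  rw [← hEdef, ← hN] at f1 f2 f3
  have hVr : Vtx (aR H n) (bR H n) [] (List.range N) (pos n p0) := vtx_of_mem_extremePoints hv
  have hpP : pos n p0 ∈ PP (aR H n) (bR H n) N := hv.1
  have hEN : ∀ i ∈ E, i < N := fun i hi => (f1 i hi).1
  have hKN : ∀ i ∈ K, i < N := fun i hi => List.mem_range.1 (List.mem_filter.1 hi).1
  have hKI : ∀ i ∈ K, Ind (aR H n) E i := fun i hi =>
    (indF_iff hy h E i hEN (hKN i hi)).1 (List.mem_filter.1 hi).2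
  have hdrop : ∀ i ∈ List.range N, i ∈ K ∨ ¬ Ind (aR H n) E i := by
    intro i hi
    by_cases h1 : Ind (aR H n) E i
    · exact Or.inl (List.mem_filter.2 ⟨hi, (indF_iff hy h E i hEN (List.mem_range.1 hi)).2 h1⟩)
    · exact Or.inr h1
  -- the vertex on the face
  have hVE' : Vtx (aR H n) (bR H n) E (List.range N) (pos n p0) :=
    hVr.conv ⟨fun i hi => (f1 i hi).2, hVr.1.2⟩ (by simp) fun i hi _ => Or.inr hi
  have hVK : Vtx (aR H n) (bR H n) E K (pos n p0) :=
    vtx_drop hVE' (fun i hi => (List.mem_filter.1 hi).1) hdrop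
  have hpre : Pre (ok n) (pos n) (aR H n) (bR H n) (cR g n) N E K [] p0 := by
    refine ⟨hp, hEN, hKN, by simp, hVK, by simp, fun x hx _ => ?_⟩
    rw [List.append_nil] at hx
    have := drop_dep hVE'.1 hdrop hx
    exact mem_PP_iff.2 fun i hi => this.2 i (List.mem_range.2 hi)
  obtain ⟨k, hk, p, ps, h1, hlen, -, h3, h4⟩ := sim (fns H g) (ind := indF H g) (spec_fns hy h)
    (fun E i hE hi => indF_iff hy h E i hE hi) K.length (Module.finrank ℝ (VE (aR H n) E)) E K [] p0 [] [] 0
    le_rfl le_rfl hKI hpre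
  obtain ⟨c1, c2, c3⟩ := ext_chain hv h1
  have hKlen : K.length ≤ N := by
    have := List.length_filter_le (indF H g E) (List.range N)
    rwa [List.length_range] at this
  -- membership in the face
  have hQface : ∀ x, x ∈ Q (aR H n) (bR H n) E (K ++ []) → x ∈ Q (aR H n) (bR H n) E
      (List.range N) := by
    intro x hx
    rw [List.append_nil] at hx
    exact drop_dep hVE'.1 hdrop hx
  have hfin : (step (fns H g) (indF H g))^[k] ([p0], [(0, E, K, [], 0)]) = (p :: ps, []) ∧
      Done H g n (pos n p) ∧ K.length + 2 * n ≤ 2 * N + 1 ∧ Module.finrank ℝ (VE (aR H n) E) + n ≤ N + 1 := by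
    have hKn : K.Nodup := List.Nodup.filter _ List.nodup_range
    have hKE : ∀ i ∈ K, i ∉ E := fun i hi => notMem_of_ind (hKI i hi)
    rcases h4 with ⟨h5, hVp, hpp, h6⟩ | ⟨h5, hVp, d, hd1, hd2, hd3⟩
    · have htop : IsTop (aR H n) (bR H n) (cR g n) E K (pos n p) := by
        rcases h6 with ⟨i, hi, -⟩ | h6
        · exact absurd hi List.not_mem_nil
        · exact h6
      have hpE : pos n p ∈ Q (aR H n) (bR H n) E (List.range N) := hQface _ hVp.1
      have htop2 : IsTop (aR H n) (bR H n) (cR g n) E (List.range N) (pos n p) := fun x hx =>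
        htop x ⟨hx.1, fun i hi => hx.2 i (List.mem_filter.1 hi).1⟩
      have hval := val_eq_of_top hpE htop2
      rw [f2] at hval
      have hVp' : Vtx (aR H n) (bR H n) [] (List.range N) (pos n p) := by
        refine hVp.conv (E' := []) (K' := List.range N) hpp (fun i hi => Or.inr ?_)
          fun i hi _ => Or.inr ?_
        · exact List.mem_range.2 (hEN i hi)
        · rw [List.append_nil] at hi
          exact (List.mem_filter.1 hi).1
      have hRE : ∀ i ∈ Tt (aR H n) (bR H n) N (pos n p), i < N →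
          aR H n i ⬝ᵥ pos n p0 = bR H n i → i ∈ E := by
        intro i hi hiN hit
        by_contra hni
        obtain ⟨T', hT', hlt⟩ := f3 i hiN hit hni
        rw [hval] at hlt
        refine absurd (le_val (c := cR g n) (E := i :: T') (K := List.range N)
          (x := pos n p) ⟨fun j hj => ?_, hpE.2⟩) (not_le.2 hlt)
        rcases List.mem_cons.1 hj with rfl | hj
        · exact (mem_Tt.1 hi).2
        · exact hpE.1 j (hT' j hj)
      have hcount := count_bounds (a := aR H n) (b := bR H n) hKn hKN hKE hVr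
        (Tt (aR H n) (bR H n) N (pos n p)) (fun i hi => (mem_Tt.1 hi).1) hRE 0
        (card_Tt hVp') (by
          rw [add_zero]
          refine finrank_le_of_zero (a := aR H n) _ _ fun d hd hdR => hVp'.2 d (by simp) fun i hi ht => ?_
          by_cases hiE : i ∈ E
          · exact hd i hiE
          · exact hdR i (Finset.mem_filter.2 ⟨mem_Tt.2 ⟨List.mem_range.1 hi, ht⟩, hiE⟩))
      refine ⟨h5, Or.inl fun x hx => ?_, by omega, by omega⟩
      have h7 : ((cR g n ⬝ᵥ x : ℝ) : EReal) ≤
          val (aR H n) (bR H n) (cR g n) [] (List.range N) := le_val hx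
      rw [hval] at h7
      exact EReal.coe_le_coe_iff.1 h7
    · have hpp : pos n p ∈ PP (aR H n) (bR H n) N := hVp.1
      have hRE : ∀ i ∈ (Finset.range N).filter (fun i => aR H n i ⬝ᵥ pos n p = bR H n i ∧
          aR H n i ⬝ᵥ d = 0), i < N → aR H n i ⬝ᵥ pos n p0 = bR H n i → i ∈ E := by
        intro i hi hiN hit
        by_contra hni
        obtain ⟨T', hT', hlt⟩ := f3 i hiN hit hni
        rw [Finset.mem_filter] at hi
        have hray : val (aR H n) (bR H n) (cR g n) (i :: T') (List.range N) = ⊤ := by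
          refine iSup_ray (u := pos n p) hd1.2.2.1 fun t ht => ⟨fun j hj => ?_, fun j hj => ?_⟩
          · rcases List.mem_cons.1 hj with rfl | hj
            · rw [dotProduct_add, dotProduct_smul, hi.2.1, hi.2.2]
              simp
            · rw [dotProduct_add, dotProduct_smul, (hd3 j (hT' j hj)).1, (hd3 j (hT' j hj)).2]
              simp
          · rw [dotProduct_add, dotProduct_smul, smul_eq_mul]
            have h8 := mem_PP_iff.1 hpp j (List.mem_range.1 hj)
            have h9 := mul_nonpos_of_nonneg_of_nonpos ht (hd2 j (List.mem_range.1 hj))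
            linarith
        rw [hray] at hlt
        exact absurd hlt not_top_lt
      have hline : ∀ (V' : Submodule ℝ (Fin n → ℝ)) (R : Finset ℕ), (∀ i ∈ (Finset.range N).filter
          (fun i => aR H n i ⬝ᵥ pos n p = bR H n i ∧ aR H n i ⬝ᵥ d = 0), i ∈ R ∨
            ∀ x ∈ V', aR H n i ⬝ᵥ x = 0) →
          Module.finrank ℝ V' ≤ R.card + 1 := by
        intro V' R hR
        refine finrank_le_of_line (a := aR H n) V' R d fun x hx hxR => ?_
        refine hd1.2.2.2 x (by simp) fun i hi h8 h9 => ?_
        rcases hR i (Finset.mem_filter.2 ⟨Finset.mem_range.2 (List.mem_range.1 hi), h8, h9⟩)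
          with h10 | h10
        · exact hxR i h10
        · exact h10 x hx
      have hcount := count_bounds (a := aR H n) (b := bR H n) hKn hKN hKE hVr
        ((Finset.range N).filter (fun i => aR H n i ⬝ᵥ pos n p = bR H n i ∧
          aR H n i ⬝ᵥ d = 0))
        (fun i hi => Finset.mem_range.1 (Finset.mem_filter.1 hi).1) hRE 1
        (by
          have := hline (VE (aR H n) []) ((Finset.range N).filter
            (fun i => aR H n i ⬝ᵥ pos n p = bR H n i ∧ aR H n i ⬝ᵥ d = 0)) fun i hi => Or.inl hi
          rwa [finrank_VE_nil] at this)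
        (hline (VE (aR H n) E) _ fun i hi => by
          by_cases hiE : i ∈ E
          · exact Or.inr fun x hx => hx i hiE
          · exact Or.inl (Finset.mem_filter.2 ⟨hi, hiE⟩))
      refine ⟨h5, Or.inr ⟨d, hd1.2.2.1, ?_⟩, by omega, by omega⟩
      exact ray_extreme hVp hd1 fun i hi => hd2 i (List.mem_range.1 hi)
  obtain ⟨e1, e2, e3, e4⟩ := hfin
  refine ⟨p, ps, ?_, ?_, c1, c2, c3, e2⟩
  · have h8 : M (Module.finrank ℝ (VE (aR H n) E)) K.length ≤
        M (min n (N - n + 1)) (min N (2 * (N - n) + 1)) := by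
      have h9 := finrank_VE_le (a := aR H n) E
      refine M_mono (le_min h9 (by omega)) (le_min hKlen (by omega))
    have h10 := M_le (min n (N - n + 1)) (min N (2 * (N - n) + 1))
    have hkL : k ≤ L := by omega
    obtain ⟨r, rfl⟩ : ∃ r, L = r + k := ⟨L - k, by omega⟩
    have hitem : item0 H g p0 = (0, E, K, [], 0) := rfl
    have hstop : ∀ r : ℕ, (step (fns H g) (indF H g))^[r] (p :: ps, []) = (p :: ps, []) := by
      intro r
      induction r with
      | zero => rfl
      | succ r ih =>
        rw [Function.iterate_succ_apply', ih]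
        rfl
    rw [Function.iterate_add_apply, hitem, e1, hstop]
  · have h8 : M (Module.finrank ℝ (VE (aR H n) E)) K.length ≤
        M (min n (N - n + 1)) (min N (2 * (N - n) + 1)) := by
      have h9 := finrank_VE_le (a := aR H n) E
      refine M_mono (le_min h9 (by omega)) (le_min hKlen (by omega))
    have h10 := M_le (min n (N - n + 1)) (min N (2 * (N - n) + 1))
    simp only [List.length_cons, List.length_nil] at hlen ⊢
    omega

end

end Pool.Agent.W960.D
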