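import Pool.Agent.W960.Size
import Pool.Agent.W960.D.Alg

set_option autoImplicit false

/-!
# The states of the machine stay small
-/

namespace Pool.Agent.W960.D

open Pool.Agent.NPC Pool.Agent.H670R2

section

variable {F : Fns (List ℤ)} {ind : List ℕ → ℕ → Bool} {N B m : ℕ}

theorem sinv_step (hF : ∀ E K W p p', F.move E K W p = some p' → sz p' ≤ B)
    {s : List (List ℤ) × List Item} (h : SInv N B m s) : SInv N B (m + 1) (step F ind s) := by
  obtain ⟨l, st⟩ := s
  cases st with
  | nil =>
    have : step F ind (l, []) = (l, []) := rfl
    rw [this]
    exact ⟨h.pts, by have := h.lp; simp at this ⊢; omega, h.items,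
      by have := h.ls; simp at this ⊢⟩
  | cons it r =>
    cases l with
    | nil =>
      have : step F ind ([], it :: r) = ([], it :: r) := rfl
      rw [this]
      exact ⟨h.pts, by simp, h.items, by have := h.ls; simp at this ⊢; omega⟩
    | cons p ps =>
      have hit : IOk N it := h.items it List.mem_cons_self
      have h1 := h.pts
      have h2 := h.lp
      have h3 : ∀ it ∈ r, IOk N it := fun it' h' => h.items it' (List.mem_cons_of_mem _ h')
      have h4 : r.length ≤ m := by
        have := h.ls
        simpa using this
      simp only at h1 h2
      obtain ⟨kd, E, K, W, i0⟩ := it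
      obtain ⟨a1, a2, a3, a4, a5, a6⟩ := hit
      simp only at a1 a2 a3 a4 a5 a6
      have key := fun new h5 h6 => SInv.mk' (N := N) (B := B) (m := m) (p := p) (ps := ps)
        (r := r) h1 h2 h3 h4 new h5 h6
      have hI1 : ∀ kd' ≤ 2, ∀ i' ≤ N, IOk N (kd', E, K, W, i') := fun kd' hk i' hi' =>
        ⟨hk, a2, a3, a4, a5, hi'⟩
      have hstep : step F ind (p :: ps, (kd, E, K, W, i0) :: r) =
          if kd = 0 then callStep F p ps E K W r
          else if kd = 1 then midStep F ind p ps E K W r
          else endStep F p ps E K W i0 r := rfl
      have hold : W960.step F (p :: ps, (kd, E, K, W, i0) :: r) =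
          if kd = 0 then callStep F p ps E K W r
          else if kd = 1 then W960.midStep F p ps E K W r
          else endStep F p ps E K W i0 r := rfl
      have hprev := SInv.step hF h
      rw [hold] at hprev
      rw [hstep]
      split_ifs at hprev ⊢ with h5 h6
      · exact hprev
      · unfold midStep
        split_ifs
        · exact key [] (by simp) (by simp)
        · split
          · exact key [] (by simp) (by simp)
          · rename_i i hi
            have hiK : i ∈ K := (List.mem_filter.1 (List.mem_of_find?_eq_some hi)).1
            refine key [(0, i :: E, K.filter (fun j => decide (j ≠ i) && ind (i :: E) j), W, 0),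
              (2, E, K, W, i)] ?_ (by simp)
            intro it hit
            rcases List.mem_cons.1 hit with rfl | hit
            · refine ⟨by simp, fun j hj => ?_, fun j hj => a3 j (List.mem_filter.1 hj).1, a4, ?_,
                by simp⟩
              · rcases List.mem_cons.1 hj with rfl | hj
                · exact a3 _ hiK
                · exact a2 j hj
              · have h7 := filter_ne_length hiK
                have h8 : (K.filter (fun j => decide (j ≠ i) && ind (i :: E) j)).length ≤
                    (K.filter (fun j => decide (j ≠ i))).length := by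
                  rw [← List.filter_filter]
                  rw [List.filter_comm]
                  exact List.length_filter_le _ _
                simp only [List.length_cons]
                omega
            · rw [List.mem_singleton] at hit
              subst hit
              exact hI1 2 (by norm_num) i (a3 i hiK).le
      · exact hprev

end

theorem stepS_iter (x : QData) (k : ℕ) : stepS^[k] (initS x) = ((rowsH x, objG x),
    (step (fns (rowsH x) (objG x)) (indF (rowsH x) (objG x)))^[k] (initS x).2) := by
  induction k with
  | zero => rfl
  | succ k ih =>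
    rw [Function.iterate_succ_apply', ih, Function.iterate_succ_apply']
    rfl

theorem foldl_keep (H : List (List ℤ)) (g : List ℤ) (l : List ℕ) : ∀ T : List ℕ,
    (∀ i ∈ l.foldl (keepS H g) T, i ∈ T ∨ i ∈ l) ∧
    (l.foldl (keepS H g) T).length ≤ T.length + l.length := by
  induction l with
  | nil => intro T; exact ⟨fun i hi => Or.inl hi, by simp⟩
  | cons j l ih =>
    intro T
    rw [List.foldl_cons]
    obtain ⟨h1, h2⟩ := ih (keepS H g T j)
    have h3 : (∀ i ∈ keepS H g T j, i ∈ T ∨ i = j) ∧ (keepS H g T j).length ≤ T.length + 1 := by
      unfold keepS
      split_ifs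
      · exact ⟨fun i hi => Or.inl hi, by omega⟩
      · refine ⟨fun i hi => ?_, by simp⟩
        rcases List.mem_cons.1 hi with rfl | hi
        · exact Or.inr rfl
        · exact Or.inl hi
    refine ⟨fun i hi => ?_, by simp only [List.length_cons]; omega⟩
    rcases h1 i hi with h4 | h4
    · rcases h3.1 i h4 with h5 | h5
      · exact Or.inl h5
      · exact Or.inr (by simp [h5])
    · exact Or.inr (List.mem_cons_of_mem _ h4)

/-- The size bound. -/
theorem size_states (hc : CanonStmt) (hr : Poly rowsH) (hg : Poly objG) :
    ∃ q : Polynomial ℕ, ∀ (x : QData) (k : ℕ),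
      sz (stepS^[k] (initS x)) ≤ (k + 1) * q.eval (sz x) := by
  obtain ⟨q1, h1⟩ := canon_size hc
  obtain ⟨q2, h2⟩ := (Poly.pair hr hg).sz_le
  refine ⟨q2 + (q1.comp q2 + Polynomial.C 2 + (Polynomial.C 3 * ((Polynomial.C 2 * q2) *
    (Polynomial.C 4 * (Polynomial.C 2 * q2) +
    Polynomial.C 2) + Polynomial.C 1) + Polynomial.C 4 * (Polynomial.C 2 * q2) +
    Polynomial.C 21)) + Polynomial.C 4, fun x k => ?_⟩
  set S := q2.eval (sz x) with hS
  have hN : (rowsH x).length ≤ S := by
    have h3 := h2 x
    rw [sz_pair] at h3
    have := length_lt_sz (rowsH x)
    omega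
  set B := q1.eval S + 1 with hB
  have hmono : ∀ H g p v, canon H g p = some v → sz (H, g) ≤ S → sz v ≤ B := by
    intro H g p v hv hle
    have h3 := h1 H g p v hv
    have h4 : q1.eval (sz (H, g)) ≤ q1.eval S := eval_mono _ hle
    omega
  have hinit : SInv (2 * S) B 0 (initS x).2 := by
    refine ⟨fun p hp => ?_, by simp [initS], fun it hit => ?_, by simp [initS]⟩
    · simp only [initS, List.mem_singleton] at hp
      subst hp
      unfold start
      cases hcn : canon (rowsH x) (objG x) (W960.clr (x.2.2 ++ [1])) with
      | none =>
        have : sz ([] : List ℤ) = 1 := rfl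
        simp only [Option.getD_none]
        rw [this]
        omega
      | some v =>
        simp only [Option.getD_some]
        exact hmono _ _ _ _ hcn (h2 x)
    · simp only [initS, List.mem_singleton] at hit
      subst hit
      obtain ⟨f1, f2⟩ := foldl_keep (rowsH x) (objG x)
        ((List.range (rowsH x).length).filter (tightF (rowsH x) (start x))) []
      have f3 : ((List.range (rowsH x).length).filter (tightF (rowsH x) (start x))).length ≤
          (rowsH x).length := by
        have := List.length_filter_le (tightF (rowsH x) (start x))
          (List.range (rowsH x).length)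
        rwa [List.length_range] at this
      have f4 := List.length_filter_le (indF (rowsH x) (objG x)
        (face0 (rowsH x) (objG x) (start x))) (List.range (rowsH x).length)
      rw [List.length_range] at f4
      refine ⟨by simp [item0], fun i hi => ?_, fun i hi => ?_, by simp [item0], ?_, by simp [item0]⟩
      · have hi' : i ∈ face0 (rowsH x) (objG x) (start x) := hi
        rcases f1 i hi' with h3 | h3
        · exact absurd h3 List.not_mem_nil
        · have := List.mem_range.1 (List.mem_filter.1 h3).1
          omega
      · have hi' : i ∈ (List.range (rowsH x).length).filter (indF (rowsH x) (objG x)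
          (face0 (rowsH x) (objG x) (start x))) := hi
        have := List.mem_range.1 (List.mem_filter.1 hi').1
        omega
      · simp only [item0, face0] at f2 f4 ⊢
        simp only [List.length_nil] at f2 ⊢
        omega
  have hk : SInv (2 * S) B k ((step (fns (rowsH x) (objG x)) (indF (rowsH x) (objG x)))^[k]
      (initS x).2) := by
    induction k with
    | zero => exact hinit
    | succ k ih =>
      rw [Function.iterate_succ_apply']
      refine sinv_step ?_ ih
      intro E K W p p' hp'
      obtain ⟨r, hr⟩ := moveF_canon hp'
      exact hmono _ _ _ _ hr (h2 x)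
  rw [stepS_iter, sz_pair]
  have h5 := sz_sinv hk
  have h6 := h2 x
  simp only [Polynomial.eval_add, Polynomial.eval_mul, Polynomial.eval_comp, Polynomial.eval_C]
  rw [← hS]
  have h7 : (k + 1) * (S + (q1.eval S + 2 + (3 * ((2 * S) * (4 * (2 * S) + 2) + 1) +
      4 * (2 * S) + 21)) + 4) =
      (k + 1) * (B + 1 + (3 * ((2 * S) * (4 * (2 * S) + 2) + 1) + 4 * (2 * S) + 21)) +
        (k + 1) * (S + 4) := by
    rw [hB]
    ring
  rw [h7]
  have h8 : S + 4 ≤ (k + 1) * (S + 4) := Nat.le_mul_of_pos_left _ (by omega)
  omega

end Pool.Agent.W960.D
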