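import Pool.Agent.W960.D.Sim

set_option autoImplicit false

/-!
# The simulation lemma with the bound for the number of moves
-/

namespace Pool.Agent.W960.D

open Matrix Relation

variable {Pt : Type}
variable {n : ℕ} {a : ℕ → Fin n → ℝ} {b : ℕ → ℝ} {c : Fin n → ℝ} {N : ℕ}

/-- The result of a call. -/
def Res (F : Fns Pt) (ind : List ℕ → ℕ → Bool) (ok : Pt → Prop) (pos : Pt → Fin n → ℝ)
    (a : ℕ → Fin n → ℝ) (b : ℕ → ℝ) (c : Fin n → ℝ) (N : ℕ) (E : List ℕ) (l : List Pt) (p : Pt)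
    (s : List Item) (s' : List Item) (Po : Pt → Prop) (m v : ℕ) : Prop :=
  ∃ k ≤ m, ∃ p' ps', ReflTransGen (Ext a b c N pos) l (p' :: ps') ∧
    (p' :: ps').length ≤ l.length + v ∧
    c ⬝ᵥ pos p ≤ c ⬝ᵥ pos p' ∧ ok p' ∧
    (((step F ind)^[k] (l, s) = (p' :: ps', s') ∧ Po p') ∨
      ((step F ind)^[k] (l, s) = (p' :: ps', []) ∧
        Vtx a b [] (List.range N) (pos p') ∧ Unb a b c N E (pos p')))

/-- The effect of a move. -/
theorem move_spec (F : Fns Pt) {pos : Pt → Fin n → ℝ} {ok : Pt → Prop}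
    (hS : Spec F pos ok a b c N) {E K W : List ℕ} {p : Pt} (hpre : Pre ok pos a b c N E K W p)
    (htop : ¬ IsTop a b c E K (pos p)) (hm : F.move E K W p = none) :
    Vtx a b [] (List.range N) (pos p) ∧ Unb a b c N E (pos p) := by
  obtain ⟨hok, hE, hK, hW, hV, hWt, hreg⟩ := hpre
  have hKW : ∀ i ∈ K ++ W, i < N := fun i hi => by
    rcases List.mem_append.1 hi with hi | hi
    · exact hK i hi
    · exact hW i hi
  have hV' : Vtx a b E (K ++ W) (pos p) := hV.append fun i hi => (hWt i hi).le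
  have hpP : pos p ∈ PP a b N := hreg _ hV'.1 le_rfl
  obtain ⟨d, hd, hno⟩ := hS.move_none E K W p hok hE hK hW hV hWt htop hm
  have hd' := hd.append hWt
  have hray : ∀ t : ℝ, 0 ≤ t → pos p + t • d ∈ PP a b N := by
    intro t ht
    refine hreg _ ((ray_extreme hV' hd' hno).subset ⟨t, ht, rfl⟩) ?_
    rw [dotProduct_add, dotProduct_smul, smul_eq_mul]
    have := mul_nonneg ht hd.2.2.1.le
    linarith
  have hrec : ∀ i < N, a i ⬝ᵥ d ≤ 0 := by
    intro i hi
    by_contra hcon
    push Not at hcon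
    set t : ℝ := (b i - a i ⬝ᵥ pos p) / (a i ⬝ᵥ d) + 1 with ht
    have h0 := mem_PP_iff.1 hpP i hi
    have ht0 : 0 ≤ t := by
      have : 0 ≤ (b i - a i ⬝ᵥ pos p) / (a i ⬝ᵥ d) := div_nonneg (by linarith) hcon.le
      linarith
    have h1 := mem_PP_iff.1 (hray t ht0) i hi
    rw [dotProduct_add, dotProduct_smul, smul_eq_mul, ht, add_mul, one_mul,
      div_mul_cancel₀ _ hcon.ne'] at h1
    linarith
  refine ⟨hV'.conv (E' := []) (K' := List.range N) hpP
    (fun i hi => Or.inr (List.mem_range.2 (hE i hi)))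
    (fun i hi _ => Or.inr (List.mem_range.2 (hKW i hi))), d,
    ⟨by simp, fun i hi _ => hrec i (List.mem_range.1 hi), hd.2.2.1, fun d' _ h2 => ?_⟩, hrec,
    fun i hi => ⟨hV.1.1 i hi, hd.1 i hi⟩⟩
  refine hd.2.2.2 d' (fun i hi => ?_) (fun i hi h3 h4 => ?_)
  · exact h2 i (List.mem_range.2 (hE i hi)) (hV.1.1 i hi) (hd.1 i hi)
  · exact h2 i (List.mem_range.2 (hK i hi)) h3 h4

theorem Res.trans {F : Fns Pt} {ind : List ℕ → ℕ → Bool} {ok : Pt → Prop}
    {pos : Pt → Fin n → ℝ} {E : List ℕ} {l : List Pt} {p : Pt}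
    {s s' s'' : List Item} {Po Po' : Pt → Prop} {m m' v v' : ℕ}
    (h : Res F ind ok pos a b c N E l p s s' Po m v)
    (h' : ∀ p' ps', ReflTransGen (Ext a b c N pos) l (p' :: ps') → c ⬝ᵥ pos p ≤ c ⬝ᵥ pos p' →
      ok p' → Po p' → Res F ind ok pos a b c N E (p' :: ps') p' s' s'' Po' m' v') :
    Res F ind ok pos a b c N E l p s s'' Po' (m + m') (v + v') := by
  obtain ⟨k, hk, p', ps', h1, hl, h2, h3, h4 | h4⟩ := h
  · obtain ⟨k', hk', q, qs, g1, gl, g2, g3, g4⟩ := h' p' ps' h1 h2 h3 h4.2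
    refine ⟨k' + k, by omega, q, qs, h1.trans g1, by omega, h2.trans g2, g3, ?_⟩
    rw [Function.iterate_add_apply, h4.1]
    exact g4
  · exact ⟨k, by omega, p', ps', h1, by omega, h2, h3, Or.inr h4⟩

theorem Res.one {F : Fns Pt} {ind : List ℕ → ℕ → Bool} {ok : Pt → Prop}
    {pos : Pt → Fin n → ℝ} {E : List ℕ} {ps : List Pt} {p : Pt}
    {s s' : List Item} {Po : Pt → Prop} (h : step F ind (p :: ps, s) = (p :: ps, s')) (hok : ok p)
    (hP : Po p) : Res F ind ok pos a b c N E (p :: ps) p s s' Po 1 0 :=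
  ⟨1, le_rfl, p, ps, ReflTransGen.refl, le_rfl, le_rfl, hok, Or.inl ⟨h, hP⟩⟩

theorem Res.mono {F : Fns Pt} {ind : List ℕ → ℕ → Bool} {ok : Pt → Prop}
    {pos : Pt → Fin n → ℝ} {E : List ℕ} {l : List Pt} {p : Pt}
    {s s' : List Item} {Po : Pt → Prop} {m m' v v' : ℕ}
    (h : Res F ind ok pos a b c N E l p s s' Po m v) (hm : m ≤ m') (hv : v ≤ v') :
    Res F ind ok pos a b c N E l p s s' Po m' v' := by
  obtain ⟨k, hk, p', ps', h1, hl, h⟩ := h
  exact ⟨k, hk.trans hm, p', ps', h1, by omega, h⟩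

theorem Res.restrict {F : Fns Pt} {ind : List ℕ → ℕ → Bool} {ok : Pt → Prop}
    {pos : Pt → Fin n → ℝ} {i : ℕ} {E : List ℕ} {l : List Pt} {p : Pt}
    {s s' : List Item} {Po : Pt → Prop} {m v : ℕ}
    (h : Res F ind ok pos a b c N (i :: E) l p s s' Po m v) :
    Res F ind ok pos a b c N E l p s s' Po m v := by
  obtain ⟨k, hk, p', ps', h1, hl, h2, h3, h4⟩ := h
  refine ⟨k, hk, p', ps', h1, hl, h2, h3, ?_⟩
  rcases h4 with h4 | ⟨h4, h5, d, h6, h7, h8⟩
  · exact Or.inl h4
  · exact Or.inr ⟨h4, h5, d, h6, h7, fun j hj => h8 j (List.mem_cons_of_mem _ hj)⟩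

/-- Constraints which are constant on the affine space can be dropped. -/
theorem drop_dep {E K K' : List ℕ} {p x : Fin n → ℝ}
    (hp : p ∈ Q a b E K) (hK : ∀ i ∈ K, i ∈ K' ∨ ¬ Ind a E i) (hx : x ∈ Q a b E K') :
    x ∈ Q a b E K := by
  refine ⟨hx.1, fun i hi => ?_⟩
  rcases hK i hi with h | h
  · exact hx.2 i h
  · have h1 : a i ⬝ᵥ (x - p) = 0 := by
      by_contra hne
      exact h ⟨x - p, fun j hj => by rw [dotProduct_sub, hx.1 j hj, hp.1 j hj, sub_self], hne⟩
    rw [dotProduct_sub] at h1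
    have := hp.2 i hi
    linarith

theorem vtx_drop {E K K' : List ℕ} {p : Fin n → ℝ} (h : Vtx a b E K p)
    (hK' : ∀ i ∈ K', i ∈ K) (hK : ∀ i ∈ K, i ∈ K' ∨ ¬ Ind a E i) : Vtx a b E K' p := by
  refine ⟨⟨h.1.1, fun i hi => h.1.2 i (hK' i hi)⟩, fun d h1 h2 => h.2 d h1 fun i hi h3 => ?_⟩
  rcases hK i hi with h4 | h4
  · exact h2 i h4 h3
  · by_contra hne
    exact h4 ⟨d, h1, hne⟩

theorem finrank_VE_cons {E : List ℕ} {i : ℕ} (h : Ind a E i) :
    Module.finrank ℝ (VE a (i :: E)) + 1 ≤ Module.finrank ℝ (VE a E) := by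
  obtain ⟨d, hd, hne⟩ := h
  have hlt : VE a (i :: E) < VE a E := by
    refine lt_of_le_of_ne (fun x hx j hj => hx j (List.mem_cons_of_mem _ hj)) fun heq => ?_
    rw [← heq] at hd
    exact hne (hd i List.mem_cons_self)
  exact Submodule.finrank_lt_finrank_of_lt hlt

theorem sim (F : Fns Pt) {ind : List ℕ → ℕ → Bool} {pos : Pt → Fin n → ℝ} {ok : Pt → Prop}
    (hS : Spec F pos ok a b c N)
    (hI : ∀ E i, (∀ j ∈ E, j < N) → i < N → (ind E i = true ↔ Ind a E i)) :
    ∀ (k d : ℕ) (E K W : List ℕ) (p : Pt) (ps : List Pt)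
    (s : List Item) (i₀ : ℕ), K.length ≤ k → Module.finrank ℝ (VE a E) ≤ d →
    (∀ i ∈ K, Ind a E i) → Pre ok pos a b c N E K W p →
    Res F ind ok pos a b c N E (p :: ps) p ((0, E, K, W, i₀) :: s) s (Post pos a b c N E K W)
      (5 * M d k + 1) (M d k) := by
  intro k
  induction k using Nat.strong_induction_on with
  | _ k ih =>
  intro d E K W p ps s i₀ hk hdim hKI hpre
  obtain ⟨hok, hE, hK, hW, hV, hWt, hreg⟩ := id hpre
  have hV' : Vtx a b E (K ++ W) (pos p) := hV.append fun i hi => (hWt i hi).le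
  have hpP : pos p ∈ PP a b N := hreg _ hV'.1 le_rfl
  by_cases htop : IsTop a b c E K (pos p)
  · -- optimal already
    refine (Res.one (s' := s) ?_ hok ⟨hV', hpP, Or.inr htop⟩).mono (by omega) (Nat.zero_le _)
    have := (hS.top E K p hok hE hK hV).2 htop
    simp [step, callStep, this]
  have htopb : F.top E K p = false := by
    rw [← Bool.not_eq_true]
    exact fun h => htop ((hS.top E K p hok hE hK hV).1 h)
  -- there is at least one inequality
  have hk1 : 1 ≤ k := by
    by_contra hcon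
    have hK0 : K = [] := by
      rw [← List.length_eq_zero_iff]; omega
    apply htop
    intro x hx
    have h1 : x - pos p = 0 := hV.2 _ (fun i hi => by
      rw [dotProduct_sub, hx.1 i hi, hV.1.1 i hi, sub_self])
      (fun i hi _ => by rw [hK0] at hi; exact absurd hi List.not_mem_nil)
    rw [sub_eq_zero.1 h1]
  -- the dimension is positive
  have hd1 : 1 ≤ d := by
    by_contra hcon
    have h0 : Module.finrank ℝ (VE a E) = 0 := by omega
    rw [Submodule.finrank_eq_zero] at h0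
    apply htop
    intro x hx
    have h1 : x - pos p ∈ VE a E := fun i hi => by
      rw [dotProduct_sub, hx.1 i hi, hV.1.1 i hi, sub_self]
    rw [h0, Submodule.mem_bot] at h1
    rw [sub_eq_zero.1 h1]
  set U := K.filter (isUp F E K) with hU
  set Lw := K.filter (fun i => !isUp F E K i) with hLw
  have hUK : ∀ i ∈ U, i ∈ K := fun i hi => (List.mem_filter.1 hi).1
  have hLK : ∀ i ∈ Lw, i ∈ K := fun i hi => (List.mem_filter.1 hi).1
  have hKUL : ∀ i ∈ K, i ∈ U ∨ i ∈ Lw := by
    intro i hi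
    by_cases h : isUp F E K i = true
    · exact Or.inl (List.mem_filter.2 ⟨hi, h⟩)
    · exact Or.inr (List.mem_filter.2 ⟨hi, by simpa using h⟩)
  have hMk : 0 + M d (k / 2) + (0 + (M (d - 1) (k - 1) + (1 + M d (k / 2)))) ≤ M d k := by
    obtain ⟨k', rfl⟩ : ∃ k', k = k' + 1 := ⟨k - 1, by omega⟩
    obtain ⟨d', rfl⟩ : ∃ d', d = d' + 1 := ⟨d - 1, by omega⟩
    rw [M_succ]
    simp only [Nat.add_sub_cancel]
    omega
  have hTk : 1 + (5 * M d (k / 2) + 1) + (1 + (5 * M (d - 1) (k - 1) + 1 +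
      (1 + (5 * M d (k / 2) + 1)))) ≤ 5 * M d k + 1 := by
    obtain ⟨k', rfl⟩ : ∃ k', k = k' + 1 := ⟨k - 1, by omega⟩
    obtain ⟨d', rfl⟩ : ∃ d', d = d' + 1 := ⟨d - 1, by omega⟩
    rw [M_succ]
    simp only [Nat.add_sub_cancel]
    omega
  -- phase A
  have hA : Res F ind ok pos a b c N E (p :: ps) p ((0, E, K, W, i₀) :: s) ((1, E, K, W, 0) :: s)
      (fun q => Vtx a b E (K ++ W) (pos q) ∧ pos q ∈ PP a b N ∧
        ((∃ i ∈ W, a i ⬝ᵥ pos q = b i) ∨ (∃ i ∈ U, a i ⬝ᵥ pos q = b i) ∨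
          IsTop a b c E K (pos q))) (1 + (5 * M d (k / 2) + 1)) (0 + M d (k / 2)) := by
    by_cases hUt : ∃ i ∈ U, a i ⬝ᵥ pos p = b i
    · refine (Res.one ?_ hok ⟨hV', hpP, Or.inr (Or.inl hUt)⟩).mono (by omega) (Nat.zero_le _)
      have h1 := (any_tight hS (fun i hi => hK i (hUK i hi)) hok).2 hUt
      simp [step, callStep, htopb, ← hU, h1]
    · have hUt' : ∀ i ∈ U, a i ⬝ᵥ pos p < b i := fun i hi =>
        lt_of_le_of_ne (hV.1.2 i (hUK i hi)) fun h => hUt ⟨i, hi, h⟩
      have h1 : Res F ind ok pos a b c N E (p :: ps) p ((0, E, K, W, i₀) :: s)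
          ((0, E, Lw, W ++ U, 0) :: (1, E, K, W, 0) :: s) (fun q => q = p) 1 0 := by
        refine Res.one ?_ hok rfl
        have h2 : ¬ (U.any (F.tight p) = true) := fun h =>
          hUt ((any_tight hS (fun i hi => hK i (hUK i hi)) hok).1 h)
        rw [Bool.not_eq_true] at h2
        simp only [step, callStep, htopb, ← hU, h2]
        simp [hLw]
      refine h1.trans fun q qs g1 g2 g3 g4 => ?_
      subst g4
      have hpre' : Pre ok pos a b c N E Lw (W ++ U) q := by
        refine ⟨hok, hE, fun i hi => hK i (hLK i hi), fun i hi => ?_, ?_, fun i hi => ?_, ?_⟩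
        · rcases List.mem_append.1 hi with hi | hi
          · exact hW i hi
          · exact hK i (hUK i hi)
        · refine hV.conv ⟨hV.1.1, fun i hi => hV.1.2 i (hLK i hi)⟩ (fun i hi => Or.inl hi)
            fun i hi h2 => ?_
          rcases hKUL i hi with h3 | h3
          · exact absurd h2 (hUt' i h3).ne
          · exact Or.inr h3
        · rcases List.mem_append.1 hi with hi | hi
          · exact hWt i hi
          · exact hUt' i hi
        · intro x hx hle
          refine hreg x ⟨hx.1, fun i hi => ?_⟩ hle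
          rcases List.mem_append.1 hi with hi | hi
          · rcases hKUL i hi with h3 | h3
            · exact hx.2 i (by simp [h3])
            · exact hx.2 i (by simp [h3])
          · exact hx.2 i (by simp [hi])
      have hlen := length_lower F hS E K hE hK
      rw [← hLw] at hlen
      have h2 := ih (k / 2) (by omega) d E Lw (W ++ U) q qs ((1, E, K, W, 0) :: s) 0 (by omega)
        hdim (fun i hi => hKI i (hLK i hi)) hpre'
      obtain ⟨m, hm, p', ps', e1, el, e2, e3, e4⟩ := h2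
      refine ⟨m, hm, p', ps', e1, el, e2, e3, ?_⟩
      rcases e4 with ⟨e4, e5, e6, e7⟩ | e4
      · refine Or.inl ⟨e4, ?_, e6, ?_⟩
        · refine e5.conv ⟨e5.1.1, fun i hi => ?_⟩ (fun i hi => Or.inl hi) fun i hi _ => ?_
          · rcases List.mem_append.1 hi with hi | hi
            · rcases hKUL i hi with h3 | h3
              · exact e5.1.2 i (by simp [h3])
              · exact e5.1.2 i (by simp [h3])
            · exact e5.1.2 i (by simp [hi])
          · simp only [List.mem_append] at hi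
            rcases hi with hi | hi | hi
            · exact Or.inr (List.mem_append_left _ (hLK i hi))
            · exact Or.inr (List.mem_append_right _ hi)
            · exact Or.inr (List.mem_append_left _ (hUK i hi))
        · rcases e7 with ⟨i, hi, h3⟩ | h3
          · rcases List.mem_append.1 hi with hi | hi
            · exact Or.inl ⟨i, hi, h3⟩
            · exact Or.inr (Or.inl ⟨i, hi, h3⟩)
          · exact Or.inr (Or.inr fun x hx => h3 x ⟨hx.1, fun i hi => hx.2 i (hLK i hi)⟩)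
      · exact Or.inr e4
  -- the rest
  refine (hA.trans fun p1 ps1 _ hc1 hok1 hP1 => ?_).mono hTk hMk
  obtain ⟨hV1, hP1, hcase⟩ := hP1
  by_cases hW1 : ∃ i ∈ W, a i ⬝ᵥ pos p1 = b i
  · refine (Res.one ?_ hok1 ⟨hV1, hP1, Or.inl hW1⟩).mono (by omega) (Nat.zero_le _)
    have h1 := (any_tight hS hW hok1).2 hW1
    simp [step, midStep, h1]
  have hW1b : W.any (F.tight p1) = false := by
    rw [← Bool.not_eq_true]
    exact fun h => hW1 ((any_tight hS hW hok1).1 h)
  have hW1t : ∀ i ∈ W, a i ⬝ᵥ pos p1 < b i := fun i hi =>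
    lt_of_le_of_ne (hV1.1.2 i (List.mem_append_right _ hi)) fun h => hW1 ⟨i, hi, h⟩
  have hVK1 : Vtx a b E K (pos p1) := hV1.restrict fun i hi => (hW1t i hi).ne
  rcases hfind : U.find? (F.tight p1) with _ | i
  · -- no upper constraint is tight
    refine (Res.one ?_ hok1 ⟨hV1, hP1, Or.inr ?_⟩).mono (by omega) (Nat.zero_le _)
    · simp [step, midStep, hW1b, ← hU, hfind]
    · rcases hcase with h | ⟨i, hi, h⟩ | h
      · exact absurd h hW1
      · rw [List.find?_eq_none] at hfind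
        exact absurd ((hS.tight p1 i hok1 (hK i (hUK i hi))).2 h) (hfind i hi)
      · exact h
  have hiU : i ∈ U := List.mem_of_find?_eq_some hfind
  have hiK : i ∈ K := hUK i hiU
  have hiT : a i ⬝ᵥ pos p1 = b i :=
    (hS.tight p1 i hok1 (hK i hiK)).1 (List.find?_some hfind)
  have hiE : ∀ j ∈ i :: E, j < N := by
    intro j hj
    rcases List.mem_cons.1 hj with rfl | hj
    · exact hK j hiK
    · exact hE j hj
  set Ki := K.filter (fun j => decide (j ≠ i)) with hKi
  have hKiK : ∀ j ∈ Ki, j ∈ K := fun j hj => (List.mem_filter.1 hj).1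
  have hKKi : ∀ j ∈ K, j = i ∨ j ∈ Ki := by
    intro j hj
    by_cases h : j = i
    · exact Or.inl h
    · exact Or.inr (List.mem_filter.2 ⟨hj, by simpa using h⟩)
  -- the constraints which are not constant on the face
  set Kj := K.filter (fun j => decide (j ≠ i) && ind (i :: E) j) with hKj
  have hKjm : ∀ j, j ∈ Kj ↔ j ∈ K ∧ j ≠ i ∧ ind (i :: E) j = true := by
    intro j
    rw [hKj, List.mem_filter, Bool.and_eq_true, decide_eq_true_iff]
  have hKjI : ∀ j ∈ Kj, Ind a (i :: E) j := fun j hj =>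
    (hI _ _ hiE (hK j ((hKjm j).1 hj).1)).1 ((hKjm j).1 hj).2.2
  have hKjKi : ∀ j ∈ Kj, j ∈ Ki := by
    intro j hj
    refine List.mem_filter.2 ⟨((hKjm j).1 hj).1, ?_⟩
    rw [decide_eq_true_iff]
    exact ((hKjm j).1 hj).2.1
  have hKiKj : ∀ j ∈ Ki, j ∈ Kj ∨ ¬ Ind a (i :: E) j := by
    intro j hj
    by_cases h : Ind a (i :: E) j
    · refine Or.inl ((hKjm j).2 ⟨hKiK j hj, ?_, (hI _ _ hiE (hK j (hKiK j hj))).2 h⟩)
      exact of_decide_eq_true (List.mem_filter.1 hj).2
    · exact Or.inr h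
  have hKiKjW : ∀ j ∈ Ki ++ W, j ∈ Kj ++ W ∨ ¬ Ind a (i :: E) j := by
    intro j hj
    rcases List.mem_append.1 hj with hj | hj
    · rcases hKiKj j hj with h | h
      · exact Or.inl (List.mem_append_left _ h)
      · exact Or.inr h
    · exact Or.inl (List.mem_append_right _ hj)
  have hstepB : Res F ind ok pos a b c N E (p1 :: ps1) p1 ((1, E, K, W, 0) :: s)
      ((0, i :: E, Kj, W, 0) :: (2, E, K, W, i) :: s) (fun q => q = p1) 1 0 := by
    refine Res.one ?_ hok1 rfl
    simp [step, midStep, hW1b, ← hU, hfind, hKj]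
  refine hstepB.trans fun q qs _ _ _ g4 => ?_
  subst g4
  -- phase B
  have hreg1 : ∀ x ∈ Q a b E (K ++ W), c ⬝ᵥ pos q ≤ c ⬝ᵥ x → x ∈ PP a b N :=
    fun x hx hle => hreg x hx (hc1.trans hle)
  have hVi : Vtx a b (i :: E) Ki (pos q) := by
    refine hVK1.conv ⟨fun j hj => ?_, fun j hj => hVK1.1.2 j (hKiK j hj)⟩
      (fun j hj => Or.inl (List.mem_cons_of_mem _ hj)) (fun j hj _ => ?_)
    · rcases List.mem_cons.1 hj with rfl | hj
      · exact hiT
      · exact hVK1.1.1 j hj
    · rcases hKKi j hj with rfl | h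
      · exact Or.inl List.mem_cons_self
      · exact Or.inr h
  have hQiW : pos q ∈ Q a b (i :: E) (Ki ++ W) := (hVi.append fun j hj => (hW1t j hj).le).1
  have hpreB : Pre ok pos a b c N (i :: E) Kj W q := by
    refine ⟨hok1, hiE, fun j hj => hK j (hKiK j (hKjKi j hj)), hW, vtx_drop hVi hKjKi hKiKj, hW1t,
      ?_⟩
    intro x hx' hle
    have hx : x ∈ Q a b (i :: E) (Ki ++ W) := drop_dep hQiW hKiKjW hx'
    refine hreg1 x ⟨fun j hj => hx.1 j (List.mem_cons_of_mem _ hj), fun j hj => ?_⟩ hle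
    rcases List.mem_append.1 hj with hj | hj
    · rcases hKKi j hj with rfl | h
      · exact (hx.1 j List.mem_cons_self).le
      · exact hx.2 j (List.mem_append_left _ h)
    · exact hx.2 j (List.mem_append_right _ hj)
  have hlenKj : Kj.length ≤ k - 1 := by
    have h1 : Kj.length < K.length := by
      rw [hKj]
      exact List.length_filter_lt_length_iff_exists.2 ⟨i, hiK, by simp⟩
    omega
  have hdimB : Module.finrank ℝ (VE a (i :: E)) ≤ d - 1 := by
    have := finrank_VE_cons (hKI i hiK)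
    omega
  refine (ih (k - 1) (by omega) (d - 1) (i :: E) Kj W q qs ((2, E, K, W, i) :: s) 0 hlenKj
    hdimB hKjI hpreB).restrict.trans fun p2 ps2 _ hc2 hok2 hPo2 => ?_
  obtain ⟨hV2j, hP2, hcase2⟩ := hPo2
  have hV2 : Vtx a b (i :: E) (Ki ++ W) (pos p2) := by
    refine hV2j.conv (drop_dep hQiW hKiKjW hV2j.1) (fun j hj => Or.inl hj) fun j hj _ => Or.inr ?_
    rcases List.mem_append.1 hj with hj | hj
    · exact List.mem_append_left _ (hKjKi j hj)
    · exact List.mem_append_right _ hj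
  have hV2' : Vtx a b E (K ++ W) (pos p2) := by
    refine hV2.conv ⟨fun j hj => hV2.1.1 j (List.mem_cons_of_mem _ hj), fun j hj => ?_⟩
      (fun j hj => ?_) (fun j hj _ => ?_)
    · rcases List.mem_append.1 hj with hj | hj
      · rcases hKKi j hj with rfl | h
        · exact (hV2.1.1 j List.mem_cons_self).le
        · exact hV2.1.2 j (List.mem_append_left _ h)
      · exact hV2.1.2 j (List.mem_append_right _ hj)
    · rcases List.mem_cons.1 hj with rfl | hj
      · exact Or.inr (List.mem_append_left _ hiK)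
      · exact Or.inl hj
    · rcases List.mem_append.1 hj with hj | hj
      · exact Or.inr (List.mem_append_left _ (hKiK j hj))
      · exact Or.inr (List.mem_append_right _ hj)
  by_cases hW2 : ∃ j ∈ W, a j ⬝ᵥ pos p2 = b j
  · refine (Res.one ?_ hok2 ⟨hV2', hP2, Or.inl hW2⟩).mono (by omega) (Nat.zero_le _)
    have h1 := (any_tight hS hW hok2).2 hW2
    simp [step, endStep, h1]
  have hW2b : W.any (F.tight p2) = false := by
    rw [← Bool.not_eq_true]
    exact fun h => hW2 ((any_tight hS hW hok2).1 h)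
  have hW2t : ∀ j ∈ W, a j ⬝ᵥ pos p2 < b j := fun j hj =>
    lt_of_le_of_ne (hV2'.1.2 j (List.mem_append_right _ hj)) fun h => hW2 ⟨j, hj, h⟩
  have hVK2 : Vtx a b E K (pos p2) := hV2'.restrict fun j hj => (hW2t j hj).ne
  have htopi : IsTop a b c (i :: E) Ki (pos p2) := by
    rcases hcase2 with h | h
    · exact absurd h hW2
    · exact fun x hx => h x ⟨hx.1, fun j hj => hx.2 j (hKjKi j hj)⟩
  by_cases htop2 : IsTop a b c E K (pos p2)
  · refine (Res.one ?_ hok2 ⟨hV2', hP2, Or.inr htop2⟩).mono (by omega) (Nat.zero_le _)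
    have := (hS.top E K p2 hok2 hE hK hVK2).2 htop2
    simp [step, endStep, hW2b, this]
  have htop2b : F.top E K p2 = false := by
    rw [← Bool.not_eq_true]
    exact fun h => htop2 ((hS.top E K p2 hok2 hE hK hVK2).1 h)
  -- the move
  have hpre2 : Pre ok pos a b c N E K W p2 := ⟨hok2, hE, hK, hW, hVK2, hW2t,
    fun x hx hle => hreg1 x hx (hc2.trans hle)⟩
  have hmv := W960.move_spec F hS hpre2 htop2
  rcases hmove : F.move E K W p2 with _ | p3
  · refine ⟨1, by omega, p2, ps2, ReflTransGen.refl, by omega, le_rfl, hok2, Or.inr ⟨?_,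
      move_spec F hS hpre2 htop2 hmove⟩⟩
    simp [step, endStep, hW2b, htop2b, hmove]
  obtain ⟨hok3, hadj, hV3⟩ := hmv.2 p3 hmove
  have hc3 := hadj.2.2.1
  have hP3 : pos p3 ∈ PP a b N := hadj.2.1.1
  have hext : ReflTransGen (Ext a b c N pos) (p2 :: ps2) (p3 :: p2 :: ps2) :=
    ReflTransGen.single ⟨p2, p3, ps2, rfl, rfl, hadj⟩
  by_cases hW3 : ∃ j ∈ W, a j ⬝ᵥ pos p3 = b j
  · refine ⟨1, by omega, p3, p2 :: ps2, hext, by simp only [List.length_cons]; omega, hc3.le,
      hok3, Or.inl ⟨?_, hV3, hP3, Or.inl hW3⟩⟩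
    have h1 := (any_tight hS hW hok3).2 hW3
    simp [step, endStep, hW2b, htop2b, hmove, h1]
  have hW3b : W.any (F.tight p3) = false := by
    rw [← Bool.not_eq_true]
    exact fun h => hW3 ((any_tight hS hW hok3).1 h)
  have hW3t : ∀ j ∈ W, a j ⬝ᵥ pos p3 < b j := fun j hj =>
    lt_of_le_of_ne (hV3.1.2 j (List.mem_append_right _ hj)) fun h => hW3 ⟨j, hj, h⟩
  have hVK3 : Vtx a b E K (pos p3) := hV3.restrict fun j hj => (hW3t j hj).ne
  set K' := K.filter (fun j => F.lt E K i j) with hK'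
  have hK'K : ∀ j ∈ K', j ∈ K := fun j hj => (List.mem_filter.1 hj).1
  have hstepD : Res F ind ok pos a b c N E (p2 :: ps2) p2 ((2, E, K, W, i) :: s)
      ((0, E, K', W, 0) :: s) (fun q => q = p3) 1 1 := by
    refine ⟨1, le_rfl, p3, p2 :: ps2, hext, by simp, hc3.le, hok3, Or.inl ⟨?_, rfl⟩⟩
    simp [step, endStep, hW2b, htop2b, hmove, hW3b, hK']
  refine hstepD.trans fun q3 qs3 _ _ _ g4 => ?_
  subst g4
  -- constraints outside `K'` are not tight above the level of `p3`
  have hlow : ∀ j ∈ K, j ∉ K' → ∀ z ∈ Q a b E K, a j ⬝ᵥ z = b j → c ⬝ᵥ z < c ⬝ᵥ pos q3 := by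
    intro j hj hjK' z hz hjz
    have h1 : ¬ (F.lt E K i j = true) := fun h => hjK' (List.mem_filter.2 ⟨hj, h⟩)
    rw [hS.lt E K i j hE hK hiK hj, not_lt] at h1
    have h2 : val a b c (i :: E) Ki = ((c ⬝ᵥ pos p2 : ℝ) : EReal) :=
      val_eq_of_top (Q_mono (fun _ h => h) (fun _ h => List.mem_append_left _ h) hV2.1) htopi
    rw [← hKi, h2] at h1
    have h3 : ((c ⬝ᵥ z : ℝ) : EReal) ≤
        val a b c (j :: E) (K.filter (fun l => decide (l ≠ j))) := by
      refine le_val ⟨fun l hl => ?_, fun l hl => hz.2 l (List.mem_filter.1 hl).1⟩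
      rcases List.mem_cons.1 hl with rfl | hl
      · exact hjz
      · exact hz.1 l hl
    have h4 := h3.trans h1
    rw [EReal.coe_le_coe_iff] at h4
    linarith
  have hpreD : Pre ok pos a b c N E K' W q3 := by
    refine ⟨hok3, hE, fun j hj => hK j (hK'K j hj), hW, ?_, hW3t, ?_⟩
    · refine hVK3.conv ⟨hVK3.1.1, fun j hj => hVK3.1.2 j (hK'K j hj)⟩
        (fun j hj => Or.inl hj) (fun j hj h => Or.inr ?_)
      by_contra hcon
      exact absurd (hlow j hj hcon _ hVK3.1 h) (lt_irrefl _)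
    · intro x hx hle
      have hxK : x ∈ Q a b E K := region hVK3.1
        (Q_mono (fun _ h => h) (fun _ h => List.mem_append_left _ h) hx) hle hlow
      refine hreg1 x ⟨hxK.1, fun j hj => ?_⟩ ((hc2.trans hc3.le).trans hle)
      rcases List.mem_append.1 hj with hj | hj
      · exact hxK.2 j hj
      · exact hx.2 j (List.mem_append_right _ hj)
  have hlenK' : K'.length ≤ k / 2 := by
    have h1 : isUp F E K i = true := by
      have := hiU
      rw [hU] at this
      exact (List.mem_filter.1 this).2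
    rw [isUp, decide_eq_true_iff, ← hK'] at h1
    omega
  have hD := ih (k / 2) (by omega) d E K' W q3 qs3 s 0 hlenK' hdim
    (fun j hj => hKI j (hK'K j hj)) hpreD
  obtain ⟨m, hm, p', ps', e1, el, e2, e3, e4⟩ := hD
  refine ⟨m, hm, p', ps', e1, el, e2, e3, ?_⟩
  rcases e4 with ⟨e4, e5, e6, e7⟩ | e4
  · refine Or.inl ⟨e4, ?_, e6, ?_⟩
    · have hQK : pos p' ∈ Q a b E (K ++ W) := by
        refine ⟨e5.1.1, fun j hj => mem_PP_iff.1 e6 j ?_⟩
        rcases List.mem_append.1 hj with hj | hj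
        · exact hK j hj
        · exact hW j hj
      refine e5.conv hQK (fun j hj => Or.inl hj) fun j hj _ => Or.inr ?_
      rcases List.mem_append.1 hj with hj | hj
      · exact List.mem_append_left _ (hK'K j hj)
      · exact List.mem_append_right _ hj
    · rcases e7 with h | h
      · exact Or.inl h
      · exact Or.inr fun x hx => h x ⟨hx.1, fun j hj => hx.2 j (hK'K j hj)⟩
  · exact Or.inr e4

end Pool.Agent.W960.D
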